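import Pool.Agent.helper94.EU.DefsY

/-!
# Project eu (MP_ad8ced_nt: almost all primes `p`), Spec II: the small conductors (`SML`) for an arbitrary weight `lam`

RULES.  File `Pool/Agent/<seat>/EU/XX.lean`:

  import Pool.Agent.helper94.EU.SpecII
  set_option autoImplicit false
  open Finset
  namespace Pool.Agent.EU
  open Pool.Agent.FI Pool.Agent.FJ
  theorem XX (h1 : YY_stmt) ... : XX_stmt := ...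
  end Pool.Agent.EU

Auxiliary lemmas prefixed `XX_` (private where possible).  Never change this file.  If a statement is wrong tell helper94 at once.  No `convert` / `congr!`, no straight double quotes, no sorry.
Other statements may be used as hypotheses only; the rows of project fi / fj (FFC, PAI, PAD, PHK, LAT, YYB ...) are PROVED (`Pool/Agent/*/FI/XX.lean`, `Pool/Agent/*/FJ/XX.lean`).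

THE PLAN.  `U = A/x`, `h = U/K` (windows in the angle `yy`), `ρ = U²/K` (tents), `K` blocks of `(x, 2x]`; all parameters are powers of `L = log x`.  For `z, z'` of the same sign put `δ = (yy z - yy z')/2` and `v = uu z' l₂ - uu z l₁`,
`uu z l = log l - ½ log (nn z)`.  Then `√8 |dl| = √(nn z nn z') |sinh δ|` and the condition `0 < a₁, a₂ ≤ A` says that `v` lies between `loE` and `hiE`, two elementary functions of `δ`, `A/(√8 l₁)`, `A/(√8 l₂)`.  These are replaced by their values at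
the centres of the windows and blocks, the interval by a sum of tents (all errors are counted trivially, `ZON`, `ERR`), and a tent is a convolution of two indicators, so `z, l₁` and `z', l₂` separate (`TEN`).  Plancherel in `s` separates `l` and `z`:
`∫ |PPs|² ds = ∫ (sin(πρt)/(πt))² |F(t)|² |G_y(t)|² dt`, the supremum over `t` of `∫ |G_y(t)|² dy` is block Y (hypothesis `YH`), and `∫ (..)² |F|²` is trivial by Plancherel again (`SEP`).  The weights `lam` are arbitrary.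
-/

set_option autoImplicit false

open Finset

noncomputable section

namespace Pool.Agent.EU

open Pool.Agent.FI Pool.Agent.FJ

/-! ## definitions -/

/-- half of the difference of the angles -/
def dd (z z' : ℤ × ℤ) : ℝ := (yy z - yy z') / 2

/-- `log l - ½ log nn z` -/
def uu (z : ℤ × ℤ) (l : ℤ) : ℝ := Real.log l - Real.log (nn z) / 2

/-- the tent of half width `ρ` -/
def tnt (ρ v : ℝ) : ℝ := max 0 (1 - |v| / ρ)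

/-- the lower end point -/
def loE (δ τ₁ τ₂ : ℝ) : ℝ :=
  if 0 < δ then max (Real.log (Real.cosh δ - τ₁ * Real.sinh δ)) (-Real.log (Real.cosh δ + τ₂ * Real.sinh δ)) else Real.log (Real.cosh δ)

/-- the upper end point -/
def hiE (δ τ₁ τ₂ : ℝ) : ℝ :=
  if 0 < δ then -Real.log (Real.cosh δ) else min (Real.log (Real.cosh δ - τ₁ * Real.sinh δ)) (-Real.log (Real.cosh δ + τ₂ * Real.sinh δ))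

/-- the sum of tents between `a` and `b` -/
def tns (ρ a b v : ℝ) : ℝ := ∑ j ∈ Icc (⌈a / ρ⌉ + 1) (⌊b / ρ⌋ - 1), tnt ρ (v - j * ρ)

/-- the width of the windows -/
def hh (x A K : ℕ) : ℝ := A / (x * K)

/-- the half width of the tents -/
def rr (x A K : ℕ) : ℝ := (A : ℝ) ^ 2 / (x ^ 2 * K)

/-- the number of the window: `θ + kk h < yy z ≤ θ + (kk + 1) h` -/
def kk (h θ : ℝ) (z : ℤ × ℤ) : ℤ := ⌈(yy z - θ) / h⌉ - 1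

/-- the block `b` of `(x, 2x]` -/
def bl (x K b : ℕ) : Finset ℤ := {l ∈ Ioc (x : ℤ) (2 * x) | (b : ℤ) * x < K * (l - x) ∧ K * (l - x) ≤ (b + 1) * x}

/-- `A/(√8 l)` at the left end of the block -/
def tb (x A K b : ℕ) : ℝ := A / (√8 * (x * (1 + (b : ℝ) / K)))

/-- the model for `Ind`: difference `m` of the windows, blocks `b`, `b'` -/
def KT (x A K : ℕ) (m : ℤ) (b b' : ℕ) (v : ℝ) : ℝ :=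
  tns (rr x A K) (loE (m * hh x A K / 2) (tb x A K b) (tb x A K b')) (hiE (m * hh x A K / 2) (tb x A K b) (tb x A K b')) v

/-- the model for `1/|dl|` -/
def kap8 (x A K : ℕ) (m : ℤ) (z z' : ℤ × ℤ) : ℝ := √8 / (√(nn z) * √(nn z') * |Real.sinh (m * hh x A K / 2)|)

open scoped Classical in
/-- the relevant pairs of windows -/
def PW (x N A K K₁ : ℕ) (θ : ℝ) : Finset ((ℤ × ℤ) × (ℤ × ℤ)) :=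
  {p ∈ ZD N ×ˢ ZD N | (N8 p.1).sign = (N8 p.2).sign ∧ (K : ℤ) ≤ K₁ * |kk (hh x A K) θ p.1 - kk (hh x A K) θ p.2| ∧
    |kk (hh x A K) θ p.1 - kk (hh x A K) θ p.2| ≤ 7 * K}

/-- the bilinear form with a general weight `Ω(z, z')` and general `f₁, f₂` -/
def CR (x N A K₁ : ℕ) (β : ℤ × ℤ → ℝ) (Ω : ℤ × ℤ → ℤ × ℤ → ℂ) (f₁ f₂ : ℤ → ℂ) : ℂ :=
  ∑ p ∈ Pr x N A K₁, (β p.1 : ℂ) * β p.2 * Ω p.1 p.2 * (1 / ((dl p.1 p.2).natAbs : ℂ)) *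
    ∑ l₁ ∈ Ioc (x : ℤ) (2 * x), ∑ l₂ ∈ Ioc (x : ℤ) (2 * x), f₁ l₁ * f₂ l₂ * Ind A p.1 p.2 l₁ l₂

/-- the model of `CR` -/
def MM (x N A K K₁ : ℕ) (θ : ℝ) (β : ℤ × ℤ → ℝ) (Ω : ℤ × ℤ → ℤ × ℤ → ℂ) (f₁ f₂ : ℤ → ℂ) : ℂ :=
  ∑ p ∈ PW x N A K K₁ θ, (β p.1 : ℂ) * β p.2 * Ω p.1 p.2 * (kap8 x A K (kk (hh x A K) θ p.1 - kk (hh x A K) θ p.2) p.1 p.2 : ℂ) *
    ∑ b ∈ range K, ∑ b' ∈ range K, ∑ l₁ ∈ bl x K b, ∑ l₂ ∈ bl x K b',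
      f₁ l₁ * f₂ l₂ * (KT x A K (kk (hh x A K) θ p.1 - kk (hh x A K) θ p.2) b b' (uu p.2 l₂ - uu p.1 l₁) : ℂ)

open scoped Classical in
/-- the sum over a block and a window, restricted to `s < uu ≤ s + ρ` -/
def PPs (x N K q : ℕ) (c : ℤ × ℤ) (sg : ℤ) (β : ℤ × ℤ → ℝ) (f : ℤ → ℂ) (b : ℕ) (h ρ y s : ℝ) : ℂ :=
  ∑ z ∈ ZD N with ((q : ℤ) ∣ z.1 - c.1 ∧ (q : ℤ) ∣ z.2 - c.2 ∧ (N8 z).sign = sg ∧ y < yy z ∧ yy z ≤ y + h),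
    ∑ l ∈ bl x K b, f l * β z * ((1 / √(nn z) : ℝ) : ℂ) * (if s < uu z l ∧ uu z l ≤ s + ρ then 1 else 0)

/-- the weight of the characters modulo `e |dl|` induced by `ψ` modulo `r`, and of the divisor `d` -/
def Omf (om : ℕ → ℤ × ℤ → ℤ × ℤ → ℤ) (e r d : ℕ) (ψ : DirichletCharacter ℂ r) (z z' : ℤ × ℤ) : ℂ :=
  if r ∣ e * (dl z z').natAbs ∧ d ∣ e * (dl z z').natAbs then (starRingEnd ℂ) (ψ (om e z z' : ZMod r)) else 0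

/-! ## geometry -/

/-- **GEO** (short, medium).  From YYB.  `z ∈ Fd`: `z.1 + z.2 √8 > 0` in both cases, and `z.1 - z.2 √8` has the sign of `N8 z` (`(z.1 + z.2√8)(z.1 - z.2√8) = N8 z`), so `z.1 + z.2 √8 = √(nn z) e^(yy z/2)`, `z.1 - z.2 √8 = ± √(nn z) e^(-yy z/2)`.
`sp ± √8 dl = (z.1 ± z.2√8)(z'.1 ∓ z'.2√8)` (`ring`, `dl z z' = z.2 z'.1 - z'.2 z.1`, `sp z z' = z.1 z'.1 - 8 z.2 z'.2`), which is `sign · √(nn z nn z') e^(± dd)`.  `|dd| ≤ lep = log (3 + √8) ≤ 2` (YYB in helper95/FI/SpecM.lean). -/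
def GEO_stmt : Prop := ∀ N : ℕ, 1 ≤ N → ∀ z ∈ ZD N, ∀ z' ∈ ZD N, (N8 z).sign = (N8 z').sign →
  √8 * (dl z z' : ℝ) = (N8 z).sign * (√(nn z) * √(nn z') * Real.sinh (dd z z')) ∧
  (sp z z' : ℝ) = (N8 z).sign * (√(nn z) * √(nn z') * Real.cosh (dd z z')) ∧ |dd z z'| ≤ 2

/-- **RGV** (medium).  From GEO.  (1) `dl (8 l₁² - a₁²) = N8 z (a₁ l₂ - a₂ l₁)` and `dl (8 l₂² - a₂²) = N8 z' (a₁ l₂ - a₂ l₁)` (times `dl`, `field_simp; ring`, with `sp² - 8 dl² = N8 z N8 z'`); if `Ind ≠ 0` both brackets on the left are `≥ 7x² > 0`, so `N8 z` and `N8 z'` have the sign of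
`dl (a₁ l₂ - a₂ l₁)`; and `|a₁ l₂ - a₂ l₁| ≤ 2xA` (both products are in `(0, 2xA]`), `nn z ≤ 2N`: `7 x² |dl| ≤ 2N · 2xA`.  (2) insert GEO: `a₁ = √8 (cosh δ · l₁ - (√nn z/√nn z') l₂)/sinh δ` and `e^v = l₂ √(nn z)/(l₁ √(nn z'))`, `v = uu z' l₂ - uu z l₁`; similarly `a₂`. -/
def RGV_stmt : Prop := ∀ x N A : ℕ, 1 ≤ x → 1 ≤ N → A ≤ x → ∀ z ∈ ZD N, ∀ z' ∈ ZD N, dl z z' ≠ 0 → ∀ l₁ l₂ : ℤ,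
  (x : ℤ) < l₁ → l₁ ≤ 2 * x → (x : ℤ) < l₂ → l₂ ≤ 2 * x →
  (Ind A z z' l₁ l₂ ≠ 0 → (N8 z).sign = (N8 z').sign ∧ x * (dl z z').natAbs ≤ N * A) ∧
  ((N8 z).sign = (N8 z').sign →
    a1 z z' l₁ l₂ = √8 * l₁ * ((Real.cosh (dd z z') - Real.exp (uu z' l₂ - uu z l₁)) / Real.sinh (dd z z')) ∧
    a2 z z' l₁ l₂ = √8 * l₂ * ((Real.exp (-(uu z' l₂ - uu z l₁)) - Real.cosh (dd z z')) / Real.sinh (dd z z')))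

/-- **INT** (short, medium).  `cosh δ - τ |sinh δ| ≥ ½ cosh δ > 0`.  `δ > 0` (`sinh δ > 0`): the four conditions say `e^v < cosh δ`, `e^v ≥ cosh δ - τ₁ sinh δ`, `e^(-v) > cosh δ` (which implies the first, as `v < 0`), `e^(-v) ≤ cosh δ + τ₂ sinh δ`.
`δ < 0`: `e^v > cosh δ`, `e^v ≤ cosh δ - τ₁ sinh δ`, `e^(-v) < cosh δ` (implied by the first), `e^(-v) ≥ cosh δ + τ₂ sinh δ`.  Take logarithms. -/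
def INT_stmt : Prop := ∀ δ τ₁ τ₂ v : ℝ, δ ≠ 0 → |δ| ≤ 3 → 0 ≤ τ₁ → τ₁ ≤ 1 / 2 → 0 ≤ τ₂ → τ₂ ≤ 1 / 2 →
  ((0 < (Real.cosh δ - Real.exp v) / Real.sinh δ ∧ (Real.cosh δ - Real.exp v) / Real.sinh δ ≤ τ₁ ∧
    0 < (Real.exp (-v) - Real.cosh δ) / Real.sinh δ ∧ (Real.exp (-v) - Real.cosh δ) / Real.sinh δ ≤ τ₂) → loE δ τ₁ τ₂ ≤ v ∧ v ≤ hiE δ τ₁ τ₂) ∧
  (loE δ τ₁ τ₂ < v → v < hiE δ τ₁ τ₂ →
    0 < (Real.cosh δ - Real.exp v) / Real.sinh δ ∧ (Real.cosh δ - Real.exp v) / Real.sinh δ ≤ τ₁ ∧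
    0 < (Real.exp (-v) - Real.cosh δ) / Real.sinh δ ∧ (Real.exp (-v) - Real.cosh δ) / Real.sinh δ ≤ τ₂)

/-- **LIP** (medium).  `|log a - log b| ≤ |a - b|/min a b`; all the arguments of `log` are `≥ ½` (`cosh δ - τ|sinh δ| ≥ ½ cosh δ`).  `|cosh δ - cosh δ'| = 2 |sinh((δ+δ')/2) sinh((δ-δ')/2)| ≤ C U |δ - δ'|` (`|sinh t| ≤ 4|t|` for `|t| ≤ 3`, `|δ + δ'|/2 ≤ 4U`),
`|τ sinh δ - τ' sinh δ'| ≤ τ |sinh δ - sinh δ'| + |τ - τ'| |sinh δ'| ≤ C U (|δ - δ'| + |τ - τ'|)`.  `max`, `min` are Lipschitz.  Size: `|cosh δ - 1| + τ|sinh δ| ≤ C U²`. -/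
def LIP_stmt : Prop := ∃ C : ℝ, 0 < C ∧ ∀ U : ℝ, 0 < U → U ≤ 1 → ∀ δ δ' τ₁ τ₁' τ₂ τ₂' : ℝ, 0 < δ * δ' → |δ| ≤ 4 * U → |δ'| ≤ 4 * U → |δ| ≤ 3 → |δ'| ≤ 3 →
  0 ≤ τ₁ → τ₁ ≤ U / 2 → 0 ≤ τ₁' → τ₁' ≤ U / 2 → 0 ≤ τ₂ → τ₂ ≤ U / 2 → 0 ≤ τ₂' → τ₂' ≤ U / 2 →
  |loE δ τ₁ τ₂ - loE δ' τ₁' τ₂'| ≤ C * U * (|δ - δ'| + |τ₁ - τ₁'| + |τ₂ - τ₂'|) ∧
  |hiE δ τ₁ τ₂ - hiE δ' τ₁' τ₂'| ≤ C * U * (|δ - δ'| + |τ₁ - τ₁'| + |τ₂ - τ₂'|) ∧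
  |loE δ τ₁ τ₂| ≤ C * U ^ 2 ∧ |hiE δ τ₁ τ₂| ≤ C * U ^ 2

/-- **TNQ** (short, medium; sums of tents).  The tents `tnt ρ (v - jρ)`, `j ∈ ℤ`, sum to `1` at every `v` (only `j = ⌊v/ρ⌋`, `⌊v/ρ⌋ + 1` contribute: `1 - (v/ρ - j) + (v/ρ - j)`).  `v ≤ a` or `b ≤ v`: every `j` of the set has `|v - jρ| ≥ ρ`.  `a + 3ρ ≤ v ≤ b - 3ρ`: both `j` are in the set. -/
def TNQ_stmt : Prop := ∀ ρ a b : ℝ, 0 < ρ → (∀ v : ℝ, 0 ≤ tns ρ a b v ∧ tns ρ a b v ≤ 1) ∧ (∀ v : ℝ, v ≤ a ∨ b ≤ v → tns ρ a b v = 0) ∧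
  (∀ v : ℝ, a + 3 * ρ ≤ v → v ≤ b - 3 * ρ → tns ρ a b v = 1) ∧ (#(Icc (⌈a / ρ⌉ + 1) (⌊b / ρ⌋ - 1)) : ℝ) ≤ |b - a| / ρ

/-- **CNI** (short, medium; fixed `l₁` or fixed `l₂`).  From GEO, FFC.  `a₁ = (sp l₁ - N8 z l₂)/dl` is affine in `l₂` with slope `-N8 z/dl`, `|N8 z| > N`: the condition `0 < a₁ ≤ A` puts `l₂` in a half open interval of length `A|dl|/nn z`; similarly `a₂ = (N8 z' l₁ - sp l₂)/dl` in `l₁`.  (3) `|a₁ - T| ≤ Y`: a closed interval of length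
`2Y|dl|/nn z`, at most `2Y|dl|/N + 1` integers; `|a₂ - T| ≤ Y`: slope `-sp/dl`, `|sp| ≥ N` (GEO, `cosh ≥ 1`). -/
def CNI_stmt : Prop := ∀ x N A : ℕ, 1 ≤ x → 1 ≤ N → ∀ z ∈ ZD N, ∀ z' ∈ ZD N, dl z z' ≠ 0 →
  (∀ l₁ : ℤ, (#{l₂ ∈ Ioc (x : ℤ) (2 * x) | Ind A z z' l₁ l₂ ≠ 0} : ℝ) ≤ A * (dl z z').natAbs / N + 1) ∧
  (∀ l₂ : ℤ, (#{l₁ ∈ Ioc (x : ℤ) (2 * x) | Ind A z z' l₁ l₂ ≠ 0} : ℝ) ≤ A * (dl z z').natAbs / N + 1) ∧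
  ((N8 z).sign = (N8 z').sign → ∀ (l₁ : ℤ) (T Y : ℝ), 0 ≤ Y →
    (#{l₂ ∈ Ioc (x : ℤ) (2 * x) | |a1 z z' l₁ l₂ - T| ≤ Y ∨ |a2 z z' l₁ l₂ - T| ≤ Y} : ℝ) ≤ 4 * Y * (dl z z').natAbs / N + 2)

/-- **WND** (short; windows and blocks).  `kk`: `⌈t⌉ - 1 < t ≤ ⌈t⌉`; (2) subtract.  (3) every `l ∈ (x, 2x]` lies in exactly one block: `b = ⌈K(l-x)/x⌉ - 1`.  (4) `x (1 + b/K) < l ≤ x (1 + (b+1)/K)`, so `|A/(√8 l) - tb| ≤ (A/√8) (x/K)/x²`; `√8 ≥ 2`. -/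
def WND_stmt : Prop := (∀ (h θ : ℝ) (z : ℤ × ℤ), 0 < h → ∀ k : ℤ, kk h θ z = k ↔ θ + k * h < yy z ∧ yy z ≤ θ + k * h + h) ∧
  (∀ (h θ : ℝ) (z z' : ℤ × ℤ), 0 < h → ((kk h θ z - kk h θ z' : ℤ) : ℝ) * h - h < yy z - yy z' ∧ yy z - yy z' < ((kk h θ z - kk h θ z' : ℤ) : ℝ) * h + h) ∧
  (∀ x K : ℕ, 1 ≤ x → 1 ≤ K → ∀ F : ℤ → ℂ, ∑ b ∈ range K, ∑ l ∈ bl x K b, F l = ∑ l ∈ Ioc (x : ℤ) (2 * x), F l) ∧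
  ∀ x A K b : ℕ, 1 ≤ x → 1 ≤ A → A ≤ x → 1 ≤ K → ∀ l ∈ bl x K b,
    |A / (√8 * (l : ℝ)) - tb x A K b| ≤ (A : ℝ) / (x * K) ∧ 0 ≤ tb x A K b ∧ tb x A K b ≤ (A : ℝ) / x / 2 ∧ 0 ≤ A / (√8 * (l : ℝ)) ∧ A / (√8 * (l : ℝ)) ≤ (A : ℝ) / x / 2

/-- **KRN** (short, medium).  From GEO, WND.  `U = A/x`, `h = U/K`, `δ = dd z z'`, `δ_m = m h/2`, `|δ - δ_m| < h/2` (WND (2)), `|m| ≥ K/K₁ ≥ 2`: `δ`, `δ_m` have the same sign, `|δ| ≥ |m|h/4`, `|δ_m| ≥ U/(2K₁)`, `|δ_m| ≤ |δ| + h/2 ≤ 3`, `|sinh t| ≥ |t|`.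
`1/|dl| = √8/(√nn √nn' |sinh δ|)`, `|1/|sinh δ| - 1/|sinh δ_m|| ≤ cosh 3 · (h/2)/(|δ||δ_m|) ≤ C/(m² h) ≤ C K₁²/(K U)`, `nn > N`.  `|δ| ≤ (|m|+1)h/2 ≤ 4U` and `|sinh δ| ≤ 4|δ|`, `nn ≤ 2N`: the last claim. -/
def KRN_stmt : Prop := ∃ C : ℝ, 0 < C ∧ ∀ x N A K K₁ : ℕ, 1 ≤ x → 1 ≤ N → 1 ≤ A → A ≤ x → 1 ≤ K₁ → 2 * K₁ ≤ K → ∀ θ : ℝ, ∀ p ∈ PW x N A K K₁ θ,
  dl p.1 p.2 ≠ 0 ∧
  0 < dd p.1 p.2 * (((kk (hh x A K) θ p.1 - kk (hh x A K) θ p.2 : ℤ) : ℝ) * hh x A K / 2) ∧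
  |dd p.1 p.2 - ((kk (hh x A K) θ p.1 - kk (hh x A K) θ p.2 : ℤ) : ℝ) * hh x A K / 2| ≤ hh x A K / 2 ∧
  |dd p.1 p.2| ≤ 4 * (A / x) ∧ |((kk (hh x A K) θ p.1 - kk (hh x A K) θ p.2 : ℤ) : ℝ) * hh x A K / 2| ≤ 4 * (A / x) ∧
  |((kk (hh x A K) θ p.1 - kk (hh x A K) θ p.2 : ℤ) : ℝ) * hh x A K / 2| ≤ 3 ∧
  (A : ℝ) / (x * (4 * K₁)) ≤ |dd p.1 p.2| ∧
  |1 / ((dl p.1 p.2).natAbs : ℝ) - kap8 x A K (kk (hh x A K) θ p.1 - kk (hh x A K) θ p.2) p.1 p.2| ≤ C * ((K₁ : ℝ) ^ 2 * x / (K * A * N)) ∧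
  kap8 x A K (kk (hh x A K) θ p.1 - kk (hh x A K) θ p.2) p.1 p.2 ≤ C * (K₁ * x / (A * N)) ∧ ((dl p.1 p.2).natAbs : ℝ) ≤ C * (N * A / x)

/-- **PRM** (short, medium).  From GEO, WND.  `m = kk z - kk z'`, `U = A/x`.  (1) `√8 |dl| = √nn √nn' |sinh δ| ≥ N |δ|` and `x|dl| ≤ NA`: `|yy z - yy z'| = 2|δ| ≤ 5.7 U`, `(|m| - 1) h < 5.7 U`, so `|m| < 5.7 K + 1 ≤ 7K`.  (2) `K₁|m| < K`: `|δ| ≤ (|m|+1)h/2 ≤ (K/K₁ + 1)h/2 ≤ (K/K₁) h = U/K₁` (`K ≥ K₁`),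
`|dl| ≤ 2N · 4|δ|/√8` (`|sinh δ| ≤ 4|δ|` for `|δ| ≤ 2`). -/
def PRM_stmt : Prop := ∃ C : ℝ, 0 < C ∧ ∀ x N A K K₁ : ℕ, 1 ≤ x → 1 ≤ N → 1 ≤ A → A ≤ x → 1 ≤ K₁ → 2 * K₁ ≤ K → ∀ θ : ℝ, ∀ z ∈ ZD N, ∀ z' ∈ ZD N,
  (N8 z).sign = (N8 z').sign →
  (x * (dl z z').natAbs ≤ N * A → |kk (hh x A K) θ z - kk (hh x A K) θ z'| ≤ 7 * K) ∧
  (K₁ * |kk (hh x A K) θ z - kk (hh x A K) θ z'| < (K : ℤ) → ((dl z z').natAbs : ℝ) ≤ C * (N * A / (x * K₁)))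

/-- **ZON** (medium; the zone).  From RGV, INT, LIP, TNQ, WND, KRN.  `p = (z, z')`, `m`, `δ`, `δ_m`, `U = A/x`, `ρ = rr = U²/K`.  `l₁ ∈ bl b`, `l₂ ∈ bl b'`, `v = uu z' l₂ - uu z l₁`; `τ₁ = A/(√8 l₁)`, `τ₂ = A/(√8 l₂)`.  Let `lo*, hi*` be `loE, hiE` at `(δ, τ₁, τ₂)` and `lo, hi` at `(δ_m, tb b, tb b')`: by LIP, KRN, WND
`|lo* - lo|, |hi* - hi| ≤ C U (h/2 + 2U/K) ≤ C₁ ρ`.  By RGV (2) and INT: `Ind = 1` implies `lo* ≤ v ≤ hi*`; `lo* < v < hi*` implies `Ind = 1`.  If `Ind ≠ KT` then `|v - lo*| ≤ C₂ρ` or `|v - hi*| ≤ C₂ρ` with `C₂ = C₁ + 3`: otherwise `v < lo* - C₂ρ` (then `v < lo`: both are `0`), or `v > hi* + C₂ρ` (the same), or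
`lo* + C₂ρ < v < hi* - C₂ρ` (then both are `1`, TNQ).  `lo*`, `hi*` are one of the four expressions `log(cosh δ - τ₁ sinh δ)`, `-log(cosh δ + τ₂ sinh δ)`, `-log cosh δ` (`δ > 0`), `log cosh δ` (`δ < 0`); in the first case `|e^v - (cosh δ - τ₁ sinh δ)| ≤ C ρ`, so
`|a₁ - A| ≤ √8 l₁ C ρ/|sinh δ| ≤ C x ρ · 4K₁/U = C A K₁/K` (RGV (2), KRN: `|δ| ≥ U/(4K₁)`), second: `|a₂ - A|`, third: `|a₂|` (`|e^(-v) - cosh δ| ≤ Cρ`), fourth: `|a₁|`. -/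
def ZON_stmt : Prop := ∃ C : ℝ, 0 < C ∧ ∀ x N A K K₁ : ℕ, 1 ≤ x → 1 ≤ N → 1 ≤ A → A ≤ x → 1 ≤ K₁ → 2 * K₁ ≤ K → ∀ θ : ℝ, ∀ p ∈ PW x N A K K₁ θ,
  ∀ b < K, ∀ b' < K, ∀ l₁ ∈ bl x K b, ∀ l₂ ∈ bl x K b',
  |Ind A p.1 p.2 l₁ l₂ - KT x A K (kk (hh x A K) θ p.1 - kk (hh x A K) θ p.2) b b' (uu p.2 l₂ - uu p.1 l₁)| ≤ 1 ∧
  (Ind A p.1 p.2 l₁ l₂ ≠ KT x A K (kk (hh x A K) θ p.1 - kk (hh x A K) θ p.2) b b' (uu p.2 l₂ - uu p.1 l₁) →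
    ∃ T : ℝ, (T = 0 ∨ T = A) ∧ (|a1 p.1 p.2 l₁ l₂ - T| ≤ C * (A * K₁ / K) ∨ |a2 p.1 p.2 l₁ l₂ - T| ≤ C * (A * K₁ / K)))

/-- **ERR** (medium, long; the error of the model).  From RGV, CNI, KRN, PRM, ZON, WND, PAI, PAD.  The pairs of different signs have `Ind = 0` (RGV (1)).  `T(p) = |dl|⁻¹ ∑ f₁ f₂ Ind`, `T'(p)` = the model term.  `CR - MM = ∑_{p ∈ PW} (T - T') + ∑_{p ∈ Pr, same sign, p ∉ PW} T - ∑_{p ∈ PW, p ∉ Pr} T` (with `β β' Ω`).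
(a) `p ∈ PW`: by WND (3) `|T - T'| ≤ |1/|dl| - kap8| M² #{Ind ≠ 0} + kap8 M² #{Ind ≠ KT}`.  `#{Ind ≠ 0} ≤ x (A|dl|/N + 1) ≤ C(A² + x) ≤ C A²` (CNI, KRN, `x ≤ A²`); `#{Ind ≠ KT} ≤ x · 2 (4 C (A K₁/K)|dl|/N + 2) ≤ C (A² K₁/K + x)` (ZON, CNI (3)).
So `|T - T'| ≤ C M² (K₁² x A/(K N) + (K₁ x/(A N)) (A² K₁/K + x))`, and there are at most `C N (N A/x + 1) ≤ C N² A/x` pairs (PAI with `|dl| ≤ C N A/x`): total `C M² Mβ² (N A² K₁²/K + K₁ N x)`.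
(b) `p ∈ Pr`, same sign, `p ∉ PW`: by PRM (1) `K₁|m| < K`, so `|dl| ≤ C N A/(x K₁)` (PRM (2)); `p ∈ PW`, `p ∉ Pr`: either `x|dl| > NA`, then `T = 0` (RGV (1)), or `K₁ x |dl| ≤ N A`.  In all these cases `1 ≤ |dl| ≤ C N A/(x K₁)` and `|T| ≤ |dl|⁻¹ M² x (A|dl|/N + 1)`; at most `C N` pairs for each value of `|dl|` (PAD):
`C M² Mβ² N ∑_{D ≤ C N A/(x K₁)} (x A/N + x/D) ≤ C M² Mβ² (N A²/K₁ + N x (1 + log (N A)))`. -/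
def ERR_stmt : Prop := ∃ C : ℝ, 0 < C ∧ ∀ x N A K K₁ : ℕ, 1 ≤ x → 1 ≤ N → 1 ≤ A → A ≤ x → 1 ≤ K₁ → 2 * K₁ ≤ K → x ≤ A ^ 2 → x ≤ N * A →
  ∀ (M Mβ : ℝ) (β : ℤ × ℤ → ℝ) (Ω : ℤ × ℤ → ℤ × ℤ → ℂ) (f₁ f₂ : ℤ → ℂ), (∀ z, |β z| ≤ Mβ) → (∀ z z', ‖Ω z z'‖ ≤ 1) → (∀ l, ‖f₁ l‖ ≤ M) → (∀ l, ‖f₂ l‖ ≤ M) →
  ∀ θ : ℝ, ‖CR x N A K₁ β Ω f₁ f₂ - MM x N A K K₁ θ β Ω f₁ f₂‖
    ≤ C * M ^ 2 * Mβ ^ 2 * (N * (A : ℝ) ^ 2 * ((K₁ : ℝ) ^ 2 / K + 1 / K₁) + K₁ * N * x * (1 + Real.log (N * A : ℕ)))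

/-! ## the model: tents, Plancherel, block Y -/

/-- **TEN** (short, medium).  `tnt ρ (w - u) = ρ⁻¹ ∫ [s < u ≤ s+ρ][s < w ≤ s+ρ] ds` (the measure of `[u-ρ, u) ∩ [w-ρ, w)` is `max 0 (ρ - |w-u|)`).  So the sum is `ρ⁻¹ ∫ P(s - τ) Q(s) ds` (`[s < u + τ ≤ s + ρ] = [s - τ < u ≤ s - τ + ρ]`), and `‖P Q‖ ≤ ½(‖P‖² + ‖Q‖²)`, translation invariance.  All functions are finite sums of indicators of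
bounded intervals. -/
def TEN_stmt : Prop := ∀ (ι κ : Type) (S : Finset ι) (S' : Finset κ) (a : ι → ℂ) (a' : κ → ℂ) (u : ι → ℝ) (w : κ → ℝ) (ρ τ : ℝ), 0 < ρ →
  ‖∑ i ∈ S, ∑ j ∈ S', a i * a' j * (tnt ρ (w j - u i - τ) : ℂ)‖ ≤
    1 / (2 * ρ) * ((∫ s : ℝ, ‖∑ i ∈ S, a i * (if s < u i ∧ u i ≤ s + ρ then 1 else 0)‖ ^ 2) +
      ∫ s : ℝ, ‖∑ j ∈ S', a' j * (if s < w j ∧ w j ≤ s + ρ then 1 else 0)‖ ^ 2)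

/-- **PLS** (medium; Plancherel for step functions).  The function `P(s) = ∑ a_i [s < u_i ≤ s+ρ]` is a finite sum of indicators of bounded intervals, so integrable and in `L²`; its Fourier transform is `𝓕 P (t) = ∑ a_i ∫_{u_i-ρ}^{u_i} e(-st) ds = (∑ a_i e(-u_i t)) (e(ρt) - 1)/(2πit)` for `t ≠ 0`, `|e(ρt) - 1| = 2|sin(πρt)|`.  Plancherel
for functions in `L¹ ∩ L²`: copy `PLN_main` with `PLN_ae`, `PLN_l2` from Pool/Agent/helper27/RX/PLN.lean (`Integrable h → MemLp h 2 → Integrable ‖𝓕 h‖² ∧ ∫ ‖𝓕 h‖² = ∫ ‖h‖²`).  Then `t ↦ -t`. -/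
def PLS_stmt : Prop := ∀ (ι : Type) (S : Finset ι) (a : ι → ℂ) (u : ι → ℝ) (ρ : ℝ), 0 < ρ →
  MeasureTheory.Integrable (fun t : ℝ => (Real.sin (Real.pi * ρ * t) / (Real.pi * t)) ^ 2 * ‖∑ i ∈ S, a i * Complex.exp (2 * Real.pi * t * u i * Complex.I)‖ ^ 2) ∧
  ∫ s : ℝ, ‖∑ i ∈ S, a i * (if s < u i ∧ u i ≤ s + ρ then 1 else 0)‖ ^ 2 =
    ∫ t : ℝ, (Real.sin (Real.pi * ρ * t) / (Real.pi * t)) ^ 2 * ‖∑ i ∈ S, a i * Complex.exp (2 * Real.pi * t * u i * Complex.I)‖ ^ 2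

/-- **QQL** (short; the physical side).  `|log l - (s + ρ/2)| ≤ ρ/2`: if `l < l'` are two such integers of `(x, 2x]`, `l' - l = l'(1 - l/l') ≤ 2x (1 - e^(-ρ)) ≤ 2xρ`: at most `2xρ + 1` integers for each `s`, none unless `log x - ρ ≤ s ≤ log (2x)`.  So `∫ ≤ M² (2xρ+1)² (1 + ρ)`. -/
def QQL_stmt : Prop := ∀ (x : ℕ) (S : Finset ℤ) (f : ℤ → ℂ) (M ρ : ℝ), 1 ≤ x → S ⊆ Ioc (x : ℤ) (2 * x) → (∀ l, ‖f l‖ ≤ M) → 0 < ρ →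
  ∫ s : ℝ, ‖∑ l ∈ S, f l * (if s < Real.log l ∧ Real.log l ≤ s + ρ then 1 else 0)‖ ^ 2 ≤ M ^ 2 * (2 * x * ρ + 1) ^ 2 * (1 + ρ)

/-- **TLM** (medium; the tail, without a mean value theorem).  From PLS, QQL.  `F(t) = ∑_{l ∈ S} f(l) e(t log l)`, `ρ₁ = 1/T₁`.  For `|t| ≥ T₁`: `ρ₁⁻¹ ∫_{ρ₁}^{2ρ₁} sin²(πρ't) dρ' = ½ - (sin(4πρ₁t) - sin(2πρ₁t))/(4πρ₁t) ≥ ½ - 2/(4π) ≥ ¼`.  So `1/t² ≤ 4π² ρ₁⁻¹ ∫_{ρ₁}^{2ρ₁} (sin(πρ't)/(πt))² dρ'` and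
by Tonelli, PLS (`ρ = ρ'`, `u = log l`) and QQL the left side is at most `4π² max_{ρ' ≤ 2ρ₁} M² (2xρ'+1)² (1+ρ') ≤ C M² (x/T₁ + 1)²`. -/
def TLM_stmt : Prop := ∃ C : ℝ, 0 < C ∧ ∀ (x : ℕ) (S : Finset ℤ) (f : ℤ → ℂ) (M T₁ : ℝ), 1 ≤ x → S ⊆ Ioc (x : ℤ) (2 * x) → (∀ l, ‖f l‖ ≤ M) → 1 ≤ T₁ →
  ∫ t in {t : ℝ | T₁ < |t|}, 1 / t ^ 2 * ‖∑ l ∈ S, f l * Complex.exp (2 * Real.pi * t * Real.log l * Complex.I)‖ ^ 2 ≤ C * (M ^ 2 * (x / T₁ + 1) ^ 2)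

/-- **GTR** (short, medium).  From SCW (Pool/Agent/helper68/BP/SCW.lean, statement in helper36/BP/SpecE.lean), FFC.  `‖ZW‖ ≤ Mβ N^(-1/2) #W_y`, `W_y = {z ∈ ZD N : y < yy z ≤ y + h}` (`‖(nn z)^(-1/2+it)‖ = (nn z)^(-1/2)`), `#W_y ≤ C (N h + √N)` (SCW with `v = 2N`, `c = y + h/2`, `ρ = h/2`; `ZD N ⊆ FE (2N)`), and `∫ #W_y dy = h #ZD N ≤ 50 N h`. -/
def GTR_stmt : Prop := ∃ C : ℝ, 0 < C ∧ ∀ (N q : ℕ) (c : ℤ × ℤ) (sg : ℤ) (β : ℤ × ℤ → ℝ) (Mβ h t : ℝ), 1 ≤ N → (∀ z, |β z| ≤ Mβ) → 0 < h →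
  MeasureTheory.Integrable (fun y : ℝ => ‖ZW N q c sg β y h t‖ ^ 2) ∧ ∫ y : ℝ, ‖ZW N q c sg β y h t‖ ^ 2 ≤ C * (Mβ ^ 2 * (h * (N * h + √N)))

/-- **SEP** (medium, long; separation of `l` and `z`).  From PLS, QQL, TLM, GTR.  For fixed `y` PLS for the index set of the pairs `(z, l)`, `u = uu z l = log l - ½ log nn z`: the exponential sum is `F(t) · G_y(t)`, `F(t) = ∑_{l ∈ bl b} f(l) e(t log l)`, `G_y(t) = ∑_z β(z) (nn z)^(-1/2) e^(-πit log nn z) = ZW N q c sg β y h (-πt)`.  So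
`∫_y ∫_s ‖PPs‖² = ∫_t (sin(πρt)/(πt))² |F(t)|² (∫_y |G_y(t)|² dy) dt` (Tonelli; `G_y(t)` is a finite sum of indicators in `y` times continuous functions of `t`).  `|πt| ≤ T`: YH (`h = hh = A/(xK) ≥ A/(x L^E)`) and `∫ (..)² |F|² dt ≤ M² (2xρ+1)² (1+ρ) ≤ 18 M² (xρ)²` (PLS and QQL, `xρ ≥ 1`, `ρ ≤ 1`).
`|πt| > T`: `(sin/(πt))² ≤ 1/(πt)²`, GTR, and TLM with `T₁ = T/π ≥ 1`.  Integrability in `y`: the double integral is finite by the same computation (Fubini), or: the inner integral depends only on the finite set `W_y`, is bounded, and vanishes for `|y| > 3`. -/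
def SEP_stmt : Prop := ∃ C : ℝ, 0 < C ∧ ∀ (x N A K E q : ℕ) (T M Mβ : ℝ) (β : ℤ × ℤ → ℝ) (f : ℤ → ℂ), 1 ≤ x → 1 ≤ N → 1 ≤ A → A ≤ x → 1 ≤ K → 4 ≤ T → x * K ≤ A ^ 2 →
  (∀ l, ‖f l‖ ≤ M) → (∀ z, |β z| ≤ Mβ) → YH x N A E T β → (K : ℝ) ≤ Real.log x ^ E → 1 ≤ q → (q : ℝ) ≤ Real.log x ^ E → ∀ (c : ℤ × ℤ) (sg : ℤ) (b : ℕ),
  MeasureTheory.Integrable (fun y : ℝ => ∫ s : ℝ, ‖PPs x N K q c sg β f b (hh x A K) (rr x A K) y s‖ ^ 2) ∧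
  ∫ y : ℝ, ∫ s : ℝ, ‖PPs x N K q c sg β f b (hh x A K) (rr x A K) y s‖ ^ 2 ≤
    C * M ^ 2 * (N * hh x A K ^ 2 * (x * rr x A K) ^ 2 / Real.log x ^ E + Mβ ^ 2 * (hh x A K * (N * hh x A K + √N) * (x / T + 1) ^ 2))

/-- **OFF** (short; the offset).  `∫_0^h ∑_{k ∈ S} Φ(θ + kh) dθ = ∑_{k ∈ S} ∫_{kh}^{(k+1)h} Φ ≤ ∫ Φ`, so for some `θ ∈ [0, h]` the integrand is at most the mean value (`MeasureTheory` mean value: `exists_le_setAverage` or contradiction by integrating the strict inequality). -/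
def OFF_stmt : Prop := ∀ Φ : ℝ → ℝ, MeasureTheory.Integrable Φ → (∀ y, 0 ≤ Φ y) → ∀ h : ℝ, 0 < h → ∀ S : Finset ℤ,
  ∃ θ : ℝ, 0 ≤ θ ∧ θ ≤ h ∧ h * ∑ k ∈ S, Φ (θ + k * h) ≤ ∫ y : ℝ, Φ y

/-- **MOD** (medium, long; the model is small for a suitable offset).  From TEN, SEP, OFF, LIP, TNQ, WND, KRN.  Put `Φ(y) = ∑_{sg = ±1} ∑_{c ∈ (range q)²} ∑_{b < K} (∫ ‖PPs f₁‖² ds + ∫ ‖PPs f₂‖² ds)`, `h = hh`, `ρ = rr`, and take `θ` from OFF with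
`S = Icc (-n) n`, `n` so large that `|kk h θ z| ≤ n` for all `z ∈ ZD N`, `θ ∈ [0, h]` (`|yy z| ≤ 4` by GEO with `z' = z`-type bound YYB, or `n` = a maximum over the finite set).  For given `θ` sort the pairs of `PW` by the sign `sg`, the classes `c, c'` modulo `q` (`Ω = Ω(c, c')` is constant on them), `m`, `k = kk z`, `kk z' = k - m`; then by `b, b'` and by the tents `j` in `KT`.  Each of these sums is, up to the factor `Ω √8/|sinh(mh/2)|`, bounded by TEN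
(`ι` = the pairs `(z, l₁)`, `κ` = the pairs `(z', l₂)`, `τ = jρ`; the weights `(nn z)^(-1/2)`) by `(2ρ)⁻¹ (∫‖PPs f₁‖²(θ+kh) + ∫‖PPs f₂‖²(θ+(k-m)h))`.  Numbers: `q²` classes for the other variable, `K` blocks for the other variable, `≤ 15K` values `m`, `≤ C K` tents (TNQ, LIP: `|hiE - loE| ≤ C U² = C K ρ`), `√8/|sinh| ≤ C K₁/U`.  So
`‖MM‖ ≤ C q² K³ (K₁/U) ρ⁻¹ ∑_k Φ(θ+kh) ≤ C q² K³ K₁/(U ρ h) ∫Φ` and `∫Φ ≤ 4 q² K · C M² (..)` by SEP; `1/(Uρh) = K²/U⁴`, and `K²/U⁴ · N h² (xρ)² = N x² U²/K²`. -/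
def MOD_stmt : Prop := ∃ C : ℝ, 0 < C ∧ ∀ (x N A K K₁ E q : ℕ) (T M Mβ : ℝ) (β : ℤ × ℤ → ℝ) (Ω : ℤ × ℤ → ℤ × ℤ → ℂ) (f₁ f₂ : ℤ → ℂ),
  1 ≤ x → 1 ≤ N → 1 ≤ A → A ≤ x → 1 ≤ K₁ → 2 * K₁ ≤ K → 4 ≤ T → x * K ≤ A ^ 2 → (∀ l, ‖f₁ l‖ ≤ M) → (∀ l, ‖f₂ l‖ ≤ M) → (∀ z, |β z| ≤ Mβ) → (∀ z z', ‖Ω z z'‖ ≤ 1) →
  YH x N A E T β → (K : ℝ) ≤ Real.log x ^ E → 1 ≤ q → (q : ℝ) ≤ Real.log x ^ E →
  (∀ z ∈ ZD N, ∀ z' ∈ ZD N, ∀ w ∈ ZD N, ∀ w' ∈ ZD N, dl z z' ≠ 0 → dl w w' ≠ 0 → (q : ℤ) ∣ z.1 - w.1 → (q : ℤ) ∣ z.2 - w.2 → (q : ℤ) ∣ z'.1 - w'.1 → (q : ℤ) ∣ z'.2 - w'.2 → Ω z z' = Ω w w') →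
  ∃ θ : ℝ, ‖MM x N A K K₁ θ β Ω f₁ f₂‖ ≤ C * ((q : ℝ) ^ 4 * K ^ 6 * K₁) * M ^ 2 *
    (N * (A : ℝ) ^ 2 / Real.log x ^ E + Mβ ^ 2 * (((x : ℝ) / A) ^ 4 * (hh x A K * (N * hh x A K + √N) * (x / T + 1) ^ 2)))

/-- **COR** (medium; the core, parameters).  From ERR, MOD.  `K = K₁³` (if `K₁ = 1` put `K = 2`), so `K₁²/K ≤ 1/K₁` up to the factor `2`; `L = log x`, `T = (x/A)² x^(η/4) ≥ 4`, `M = 2L`, `Mβ = 3L`.  ERR: `K₁ N x (1 + log (NA)) ≤ N A² x^(-η)` since `A² ≥ x^(4/3)`.  MOD: `q⁴ K⁶ K₁ ≤ 64 L^(23 E₁)`, so with `E = 24 E₁ + 10` the first part is at most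
`N A²/K₁`; second: `√N ≤ N h` (`N ≥ (x/A)² x^η` and `K ≤ 8 L^(3E₁) ≤ x^(η/2)`), `x/T + 1 ≤ 2 A² x^(-1-η/4)` (`A² ≥ x^(4/3)`), so `(x/A)⁴ · 2N h² · 4A⁴ x^(-2-η/2) = 8 N A² x^(-η/2)/K²`. -/
def COR_stmt : Prop := ∀ η : ℝ, 0 < η → ∀ E₁ : ℕ, ∃ E x₀ : ℕ, ∀ (x N A K₁ q : ℕ) (β : ℤ × ℤ → ℝ) (Ω : ℤ × ℤ → ℤ × ℤ → ℂ) (f₁ f₂ : ℤ → ℂ), x₀ ≤ x →
  (x : ℝ) ^ (2 / 3 + η) ≤ A → A ≤ x → (x : ℝ) ^ 2 * (x : ℝ) ^ η ≤ A ^ 2 * N → N ≤ A ^ 2 → 1 ≤ K₁ → (K₁ : ℝ) ≤ Real.log x ^ E₁ → 1 ≤ q → (q : ℝ) ≤ Real.log x ^ E₁ →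
  (∀ z, |β z| ≤ 3 * Real.log x) → (∀ z z', ‖Ω z z'‖ ≤ 1) → (∀ l, ‖f₁ l‖ ≤ 2 * Real.log x) → (∀ l, ‖f₂ l‖ ≤ 2 * Real.log x) →
  YH x N A E (((x : ℝ) / A) ^ 2 * (x : ℝ) ^ (η / 4)) β →
  (∀ z ∈ ZD N, ∀ z' ∈ ZD N, ∀ w ∈ ZD N, ∀ w' ∈ ZD N, dl z z' ≠ 0 → dl w w' ≠ 0 → (q : ℤ) ∣ z.1 - w.1 → (q : ℤ) ∣ z.2 - w.2 → (q : ℤ) ∣ z'.1 - w'.1 → (q : ℤ) ∣ z'.2 - w'.2 → Ω z z' = Ω w w') →
  ‖CR x N A K₁ β Ω f₁ f₂‖ ≤ N * A ^ 2 * Real.log x ^ 6 / K₁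

/-! ## from `SML` to `CR` -/

open scoped Classical in
/-- **CNE** (medium; characters and primitive characters).  Every `χ` modulo `D` of conductor `r` is induced by exactly one primitive `ψ` modulo `r ∣ D` (Mathlib `DirichletCharacter.primitiveCharacter`, `changeLevel`, `factorsThrough_conductor`; compare LSA in Pool/Agent/helper42/FJ/LSA.lean), and `χ(n) = ψ(n)` if `gcd(n, D) = 1`, `0` otherwise.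
`1 ≤ conductor` for `D ≥ 1`. -/
def CNE_stmt : Prop := ∀ D R₀ : ℕ, 1 ≤ D → ∀ G : (ℤ → ℂ) → ℂ,
  ∑ χ : DirichletCharacter ℂ D with χ.conductor ≤ R₀, G (fun n => χ (n : ZMod D)) =
    ∑ r ∈ Icc 1 R₀ with r ∣ D, ∑ ψ : DirichletCharacter ℂ r with ψ.IsPrimitive, G (fun n => if IsCoprime n (D : ℤ) then ψ (n : ZMod r) else 0)

/-- **TPD** (short).  `D/φ(D) = ∏_{p ∣ D} (1 + 1/(p-1)) = ∑_{d ∣ D squarefree} 1/φ(d)` (Mathlib `Nat.totient_mul_prod_primeFactors`; inside PHK, Pool/Agent/*/FJ/PHK.lean). -/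
def TPD_stmt : Prop := ∀ D : ℕ, 1 ≤ D → 1 / (Nat.totient D : ℝ) = 1 / D * ∑ d ∈ D.divisors with Squarefree d, 1 / (Nat.totient d : ℝ)

/-- **OMP** (short, medium; periodicity).  `OmOK` with `(u, v) = (0, 1)` and `(1, 0)`: `e dl ∣ z'.1 - om z.1` and `e dl ∣ e z'.2 - om e z.2` (for `(z, z')` and `(w, w')`), hence modulo `r`.  Subtract: `r ∣ (om e z z' - om e w w') z.1` and `r ∣ (om e z z' - om e w w') e z.2`; `gcd(z.1, e z.2) = 1` since `z.1` is odd. -/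
def OMP_stmt : Prop := ∀ om, OmOK om → ∀ e : ℕ, e = 1 ∨ e = 2 → ∀ r : ℕ, ∀ z z' w w' : ℤ × ℤ,
  z.1 % 2 = 1 → z'.1 % 2 = 1 → w.1 % 2 = 1 → w'.1 % 2 = 1 → IsCoprime z.1 z.2 → IsCoprime z'.1 z'.2 → IsCoprime w.1 w.2 → IsCoprime w'.1 w'.2 →
  dl z z' ≠ 0 → dl w w' ≠ 0 → (r : ℤ) ∣ e * dl z z' → (r : ℤ) ∣ e * dl w w' →
  (r : ℤ) ∣ z.1 - w.1 → (r : ℤ) ∣ z.2 - w.2 → (r : ℤ) ∣ z'.1 - w'.1 → (r : ℤ) ∣ z'.2 - w'.2 → (r : ℤ) ∣ om e z z' - om e w w'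

/-- **DVS** (short, medium).  From PHK.  `∑_{D ≤ X} ∑_{d ∣ D, d > D₀} 1/φ(d) ≤ ∑_{D₀ < d ≤ X} (X/d)/φ(d) ≤ (X/D₀) ∑_{d ≤ X} 1/φ(d)`; with the weight `1/D`: `D = d k`, `∑_k 1/k ≤ 1 + log X`. -/
def DVS_stmt : Prop := ∃ C : ℝ, 0 < C ∧ ∀ X D₀ : ℕ, 1 ≤ X → 1 ≤ D₀ →
  ∑ D ∈ Icc 1 X, ∑ d ∈ D.divisors with D₀ < d, 1 / (Nat.totient d : ℝ) ≤ C * (X * (1 + Real.log X) / D₀) ∧
  ∑ D ∈ Icc 1 X, 1 / (D : ℝ) * ∑ d ∈ D.divisors with D₀ < d, 1 / (Nat.totient d : ℝ) ≤ C * ((1 + Real.log X) ^ 2 / D₀)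

open scoped Classical in
/-- **COQ** (short).  `lam l ≠ 0` and `gcd(l, D) > 1`: a prime `g > Z` divides `l` and `D`; at most `log D/log 2` primes divide `D`, and at most `x/g + 1 ≤ x/Z + 1` integers of `(x, 2x]` are divisible by `g`. -/
def COQ_stmt : Prop := ∀ (x Z : ℕ) (M : ℝ) (lam : ℤ → ℝ), 1 ≤ x → 1 ≤ Z → LamOK x Z M lam → ∀ D : ℕ, 1 ≤ D →
  (#{l ∈ Ioc (x : ℤ) (2 * x) | lam l ≠ 0 ∧ ¬ IsCoprime l (D : ℤ)} : ℝ) ≤ 2 * (1 + Real.log D) * (x / Z + 1)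

open scoped Classical in
/-- **OUT** (medium, long; from `SML` to `CR`).  From CNE, TPD, DVS, COQ, CNI, PAD, PHK, NCH (helper52/EU/SpecI.lean), FFC.  `D = e |dl| ≤ 2NA/x =: X` for `p ∈ Pr`, `om e` is coprime to `D` (OmOK; `z.1` odd, coprime coordinates on `ZD`).  CNE with `G(g) = conj(g(om)) ∑ lam lam Ind conj(g l₁) g(l₂)`:
`SMLp = ∑_e ± φ(D)⁻¹ ∑_{r ≤ R₀, r ∣ D} ∑_ψ conj(ψ(om)) ∑_{l₁, l₂ coprime to D} lam lam Ind conj(ψ l₁) ψ(l₂)`; the number of the pairs `(r, ψ)` is at most `R₀²`.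
(1) the condition `gcd(l₁ l₂, D) = 1` is dropped: by COQ and CNI (1), (2) the error is at most `Mβ² M² R₀² ∑_p ∑_e φ(D)⁻¹ · 2 · 2(1 + log X)(x/Z + 1)(A|dl|/N + 1)`, and by PAD, PHK `∑_p φ(|dl|)⁻¹ (A|dl|/N + 1) ≤ C N (A X/N + 1)(1 + log X)`: in total `C Mβ² M² R₀² (1 + log X)² (x/Z + 1)(N A²/x + N)`.
(2) TPD, `φ(D)⁻¹ = D⁻¹ ∑_{d ∣ D, squarefree} 1/φ(d)`, the part `d > D₀`: `Mβ² M² R₀² ∑_p ∑_e D⁻¹ ∑_{d ∣ D, d > D₀} φ(d)⁻¹ · x (A|dl|/N + 1) ≤ C Mβ² M² R₀² x N (A/N · X + 1)(1 + log X)²/D₀` (PAD, DVS).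
(3) the part `d ≤ D₀` is `∑_e ∑_d ∑_r ∑_ψ ± (1/(e φ(d))) CR(Omf, lam conj ψ, lam ψ)`. -/
def OUT_stmt : Prop := ∃ C : ℝ, 0 < C ∧ ∀ om, OmOK om → ∀ x Z N A K₁ R₀ D₀ : ℕ, 1 ≤ x → 1 ≤ Z → 1 ≤ N → 1 ≤ A → A ≤ x → x ≤ N * A → 1 ≤ K₁ → 1 ≤ R₀ → 1 ≤ D₀ →
  ∀ (M Mβ : ℝ) (lam : ℤ → ℝ) (β : ℤ × ℤ → ℝ), LamOK x Z M lam → (∀ z, |β z| ≤ Mβ) →
  ‖SML x N A K₁ R₀ om β lam‖ ≤ ∑ e ∈ ({1, 2} : Finset ℕ), ∑ d ∈ Icc 1 D₀, 1 / (Nat.totient d : ℝ) * ∑ r ∈ Icc 1 R₀,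
      ∑ ψ : DirichletCharacter ℂ r with ψ.IsPrimitive,
        ‖CR x N A K₁ β (Omf om e r d ψ) (fun l => (lam l : ℂ) * (starRingEnd ℂ) (ψ (l : ZMod r))) (fun l => (lam l : ℂ) * ψ (l : ZMod r))‖
    + C * Mβ ^ 2 * M ^ 2 * R₀ ^ 2 * (1 + Real.log (2 * N * A / x : ℕ)) ^ 2 * (N * (A : ℝ) ^ 2 / Z + N * (A : ℝ) ^ 2 / D₀ + N * (A : ℝ) ^ 2 / x + x * N)

/-- **SMB** (medium; the export of part II).  From OUT, COR, OMP, PHK.  `L = log x`, `R₀ = ⌈L^(B+30)⌉`, `K₁ = D₀ = ⌈L^(3B+100)⌉`, `E₀ = 3B + 101`, `E₁ = 4B + 140` in COR (`q = r d ≤ R₀ D₀`); `E` = the maximum of `3B + 100` and the `E` of COR (`YH` with a larger exponent implies `YH` with a smaller one, `L ≥ 1`: the ranges of `q`, `h` shrink and the bound grows).  `Omf om e r d ψ` has absolute value `≤ 1` and is periodic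 modulo `q = r d` on the pairs of `ZD` with `dl ≠ 0`: `r ∣ e|dl|` and `d ∣ e|dl|` depend on the classes only, `ψ(om)` by OMP.  The sum over `e, d, r, ψ` is at most
`2 · C(1 + log D₀) · R₀² · N A² L^6/K₁` (PHK), the error of OUT: `C · 36 L⁴ · R₀² (1 + 4L)² (3 N A² L^(-3B-100) + x N)`, `N ≤ A²`, `x N ≤ N A² x^(-1/3)`. -/
def SMB_stmt : Prop := ∀ η : ℝ, 0 < η → ∀ B : ℕ, ∃ E₀ E x₀ : ℕ, B + 30 ≤ E₀ ∧ ∀ (x Z N A : ℕ) (lam : ℤ → ℝ) (β : ℤ × ℤ → ℝ) (om : ℕ → ℤ × ℤ → ℤ × ℤ → ℤ), x₀ ≤ x →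
  Real.log x ^ E ≤ Z → LamOK x Z (2 * Real.log x) lam → OmOK om → (x : ℝ) ^ (2 / 3 + η) ≤ A → A ≤ x → (x : ℝ) ^ 2 * (x : ℝ) ^ η ≤ A ^ 2 * N → N * (x : ℝ) ^ η ≤ A ^ 2 →
  (∀ z, |β z| ≤ 3 * Real.log x) → YH x N A E (((x : ℝ) / A) ^ 2 * (x : ℝ) ^ (η / 4)) β →
  ∃ K₁ R₀ : ℕ, Real.log x ^ (B + 30) ≤ K₁ ∧ (K₁ : ℝ) ≤ Real.log x ^ E₀ ∧ Real.log x ^ (B + 30) ≤ R₀ ∧ (R₀ : ℝ) ≤ Real.log x ^ E₀ ∧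
    ‖SML x N A K₁ R₀ om β lam‖ ≤ N * A ^ 2 / Real.log x ^ B

end Pool.Agent.EU
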