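import Pool.Agent.helper94.EU.SpecII
import Pool.Agent.helper95.FI.SpecM

/-! # Project eu, row GEO (hyperbolic coordinates) -/

set_option autoImplicit false

open Finset

namespace Pool.Agent.EU

open Pool.Agent.FI Pool.Agent.FJ

theorem GEO_s8 : (2 : ℝ) ≤ √8 ∧ √8 ≤ 3 ∧ √8 * √8 = 8 := by
  refine ⟨?_, ?_, ?_⟩
  · rw [show (2 : ℝ) = √4 by rw [show (4 : ℝ) = 2 ^ 2 by norm_num]; exact (Real.sqrt_sq (by norm_num)).symm]
    exact Real.sqrt_le_sqrt (by norm_num)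
  · rw [show (3 : ℝ) = √9 by rw [show (9 : ℝ) = 3 ^ 2 by norm_num]; exact (Real.sqrt_sq (by norm_num)).symm]
    exact Real.sqrt_le_sqrt (by norm_num)
  · exact Real.mul_self_sqrt (by norm_num)

theorem GEO_pos {z : ℤ × ℤ} (hz : Fd z) : 0 < (z.1 : ℝ) + z.2 * √8 := by
  obtain ⟨h2, h3, _⟩ := GEO_s8
  rcases hz.2 with h | h
  · have h' : (4 : ℝ) * |(z.2 : ℝ)| < z.1 := by exact_mod_cast h
    have h4 : |(z.2 : ℝ) * √8| ≤ 3 * |(z.2 : ℝ)| := by
      rw [abs_mul, abs_of_nonneg (by linarith : (0 : ℝ) ≤ √8), mul_comm]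
      exact mul_le_mul_of_nonneg_right h3 (abs_nonneg _)
    have h5 := neg_abs_le ((z.2 : ℝ) * √8)
    have h6 := abs_nonneg (z.2 : ℝ)
    linarith
  · have h' : |(z.1 : ℝ)| < 2 * z.2 := by exact_mod_cast h
    have h4 : (0 : ℝ) < z.2 := by
      have := abs_nonneg (z.1 : ℝ)
      linarith
    have h5 := neg_abs_le (z.1 : ℝ)
    nlinarith

theorem GEO_N8 (z : ℤ × ℤ) : (N8 z : ℝ) = ((z.1 : ℝ) + z.2 * √8) * ((z.1 : ℝ) - z.2 * √8) := by
  obtain ⟨_, _, h8⟩ := GEO_s8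
  unfold N8
  push_cast
  linear_combination ((z.2 : ℝ) ^ 2) * h8

/-- coordinates: `z.1 + z.2 √8 = √nn e^(yy/2)` and `z.1 - z.2 √8 = sign √nn e^(-yy/2)` -/
theorem GEO_crd {z : ℤ × ℤ} (hz : Fd z) (h0 : N8 z ≠ 0) :
    (z.1 : ℝ) + z.2 * √8 = √(nn z) * Real.exp (yy z / 2) ∧
    (z.1 : ℝ) - z.2 * √8 = ((N8 z).sign : ℝ) * (√(nn z) * Real.exp (-(yy z / 2))) := by
  have hP := GEO_pos hz
  have hN := GEO_N8 z
  set P : ℝ := (z.1 : ℝ) + z.2 * √8 with hPd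
  set Q : ℝ := (z.1 : ℝ) - z.2 * √8 with hQd
  have hQ0 : Q ≠ 0 := by
    intro h
    rw [h, mul_zero] at hN
    exact h0 (by exact_mod_cast hN)
  have hQ : 0 < |Q| := abs_pos.2 hQ0
  have hnn : (nn z : ℝ) = P * |Q| := by
    unfold nn
    rw [Nat.cast_natAbs, Int.cast_abs, hN, abs_mul, abs_of_pos hP]
  have hyy : yy z = Real.log (P / |Q|) := by
    unfold yy
    rw [← hPd, ← hQd, abs_of_pos hP]
  have he : Real.exp (yy z) = P / |Q| := by
    rw [hyy, Real.exp_log (by positivity)]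
  have he2 : Real.exp (yy z / 2) ^ 2 = P / |Q| := by
    rw [← he, ← Real.exp_nat_mul]
    congr 1
    push_cast
    ring
  have he3 : Real.exp (-(yy z / 2)) ^ 2 = |Q| / P := by
    rw [Real.exp_neg, inv_pow, he2, inv_div]
  have hs : √(nn z : ℝ) ^ 2 = P * |Q| := by
    rw [Real.sq_sqrt (Nat.cast_nonneg _), hnn]
  have e1 : P = √(nn z) * Real.exp (yy z / 2) := by
    have h1 : P ^ 2 = (√(nn z) * Real.exp (yy z / 2)) ^ 2 := by
      rw [mul_pow, hs, he2]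
      field_simp
    exact (pow_left_inj₀ hP.le (by positivity) (by norm_num)).1 h1
  have e2 : |Q| = √(nn z) * Real.exp (-(yy z / 2)) := by
    have h1 : |Q| ^ 2 = (√(nn z) * Real.exp (-(yy z / 2))) ^ 2 := by
      rw [mul_pow, hs, he3]
      field_simp
    exact (pow_left_inj₀ hQ.le (by positivity) (by norm_num)).1 h1
  refine ⟨e1, ?_⟩
  rw [← e2]
  rcases lt_or_gt_of_ne hQ0 with hq | hq
  · have h1 : (N8 z : ℝ) < 0 := by
      rw [hN]
      exact mul_neg_of_pos_of_neg hP hq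
    have h2 : N8 z < 0 := by exact_mod_cast h1
    rw [Int.sign_eq_neg_one_of_neg h2, abs_of_neg hq]
    push_cast
    ring
  · have h1 : (0 : ℝ) < (N8 z : ℝ) := by
      rw [hN]
      exact mul_pos hP hq
    have h2 : 0 < N8 z := by exact_mod_cast h1
    rw [Int.sign_eq_one_of_pos h2, abs_of_pos hq]
    push_cast
    ring

theorem GEO_mem {N : ℕ} {z : ℤ × ℤ} (hN : 1 ≤ N) (hz : z ∈ ZD N) : Fd z ∧ N8 z ≠ 0 ∧ N < nn z ∧ nn z ≤ 2 * N ∧ IsCoprime z.1 z.2 := by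
  classical
  unfold ZD at hz
  rw [mem_filter] at hz
  obtain ⟨h1, h2, h3⟩ := hz
  unfold FF at h1
  rw [mem_filter] at h1
  refine ⟨h1.2.1, ?_, h2, h1.2.2, h3⟩
  intro h0
  have : nn z = 0 := by
    unfold nn
    rw [h0]
    rfl
  omega

theorem GEO_lep : lep ≤ 2 := by
  unfold lep
  obtain ⟨_, h3, _⟩ := GEO_s8
  rw [Real.log_le_iff_le_exp (by positivity)]
  have h1 : Real.exp 2 = Real.exp 1 ^ 2 := by
    rw [← Real.exp_nat_mul]
    norm_num
  rw [h1]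
  have h2 := Real.exp_one_gt_d9
  nlinarith

theorem GEO (hYYB : YYB_stmt) : GEO_stmt := by
  intro N hN z hz z' hz' hs
  obtain ⟨hF, h0, _, _, _⟩ := GEO_mem hN hz
  obtain ⟨hF', h0', _, _, _⟩ := GEO_mem hN hz'
  obtain ⟨c1, c2⟩ := GEO_crd hF h0
  obtain ⟨c1', c2'⟩ := GEO_crd hF' h0'
  obtain ⟨_, _, h8⟩ := GEO_s8
  have hd1 : Real.exp (yy z / 2) * Real.exp (-(yy z' / 2)) = Real.exp (dd z z') := by
    rw [← Real.exp_add]
    congr 1
    unfold dd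
    ring
  have hd2 : Real.exp (-(yy z / 2)) * Real.exp (yy z' / 2) = Real.exp (-(dd z z')) := by
    rw [← Real.exp_add]
    congr 1
    unfold dd
    ring
  have p1 : (sp z z' : ℝ) + √8 * dl z z' = ((z.1 : ℝ) + z.2 * √8) * ((z'.1 : ℝ) - z'.2 * √8) := by
    unfold sp dl
    push_cast
    linear_combination ((z.2 : ℝ) * z'.2) * h8
  have p2 : (sp z z' : ℝ) - √8 * dl z z' = ((z.1 : ℝ) - z.2 * √8) * ((z'.1 : ℝ) + z'.2 * √8) := by
    unfold sp dl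
    push_cast
    linear_combination ((z.2 : ℝ) * z'.2) * h8
  have q1 : (sp z z' : ℝ) + √8 * dl z z' = ((N8 z).sign : ℝ) * (√(nn z) * √(nn z') * Real.exp (dd z z')) := by
    rw [p1, c1, c2', ← hs, ← hd1]
    ring
  have q2 : (sp z z' : ℝ) - √8 * dl z z' = ((N8 z).sign : ℝ) * (√(nn z) * √(nn z') * Real.exp (-(dd z z'))) := by
    rw [p2, c2, c1', ← hd2]
    ring
  refine ⟨?_, ?_, ?_⟩
  · rw [Real.sinh_eq]
    linear_combination (1 / 2) * q1 - (1 / 2) * q2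
  · rw [Real.cosh_eq]
    linear_combination (1 / 2) * q1 + (1 / 2) * q2
  · have y1 := hYYB z hF
    have y2 := hYYB z' hF'
    have y3 := GEO_lep
    unfold dd
    rw [abs_le] at y1 y2 ⊢
    constructor <;> linarith

end Pool.Agent.EU
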