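import Pool.Agent.helper52.EU.SpecK

/-! # Project eu, row HBE (the identity of order 2 for the rough Möbius function), and tools for sums over elements -/

set_option autoImplicit false

open Finset

namespace Pool.Agent.EU

open Pool.Agent.FI Pool.Agent.HK Pool.Agent.BP Pool.Agent.YB
open Pool.Agent.CH (nit rgh)

/-! ## tools -/

/-- an arithmetic function from a function vanishing at `0` -/
noncomputable def HBE_af (f : ℕ → ℂ) : ArithmeticFunction ℂ := ⟨fun n => if n = 0 then 0 else f n, by simp⟩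

theorem HBE_af_apply (f : ℕ → ℂ) {n : ℕ} (hn : n ≠ 0) : HBE_af f n = f n := by
  show (if n = 0 then (0 : ℂ) else f n) = f n
  rw [if_neg hn]

theorem HBE_af_zero (f : ℕ → ℂ) : HBE_af f 0 = 0 := ArithmeticFunction.map_zero

theorem HBE_cv (f g : ℕ → ℂ) (n : ℕ) : (HBE_af f * HBE_af g) n = cv f g n := by
  rw [ArithmeticFunction.mul_apply]
  unfold cv
  refine sum_congr rfl fun d hd => ?_
  rw [Nat.mem_divisorsAntidiagonal] at hd
  have h1 : d.1 ≠ 0 := by
    intro h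
    rw [h, zero_mul] at hd
    exact hd.2 hd.1.symm
  have h2 : d.2 ≠ 0 := by
    intro h
    rw [h, mul_zero] at hd
    exact hd.2 hd.1.symm
  rw [HBE_af_apply f h1, HBE_af_apply g h2]

theorem HBE_af_cv (f g : ℕ → ℂ) : HBE_af (cv f g) = HBE_af f * HBE_af g := by
  ext n
  rcases eq_or_ne n 0 with h | h
  · rw [h, HBE_af_zero, ArithmeticFunction.map_zero]
  · rw [HBE_af_apply _ h, HBE_cv]

/-- `g * μ g = 1` -/
theorem HBE_mg {g : ℕ → ℂ} (hg : CM g) : HBE_af g * HBE_af (mg g) = 1 := by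
  obtain ⟨g0, g1, gm, _⟩ := hg
  ext n
  rw [HBE_cv]
  unfold cv mg
  have e1 : ∀ d ∈ n.divisorsAntidiagonal, g d.1 * ((ArithmeticFunction.moebius d.2 : ℂ) * g d.2) =
      g n * (ArithmeticFunction.moebius d.2 : ℂ) := by
    intro d hd
    rw [Nat.mem_divisorsAntidiagonal] at hd
    rw [← hd.1, gm]
    ring
  rw [sum_congr rfl e1, ← mul_sum]
  have e2 : ∑ d ∈ n.divisorsAntidiagonal, (ArithmeticFunction.moebius d.2 : ℂ) = ((1 : ArithmeticFunction ℤ) n : ℂ) := by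
    have h := DFunLike.congr_fun ArithmeticFunction.coe_zeta_mul_moebius n
    rw [← h, ArithmeticFunction.mul_apply]
    push_cast
    refine sum_congr rfl fun d hd => ?_
    rw [Nat.mem_divisorsAntidiagonal] at hd
    have h1 : d.1 ≠ 0 := by
      intro h
      rw [h, zero_mul] at hd
      exact hd.2 hd.1.symm
    rw [ArithmeticFunction.natCoe_apply, ArithmeticFunction.zeta_apply, if_neg h1]
    push_cast
    ring
  rw [e2]
  rcases eq_or_ne n 1 with h | h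
  · rw [h, g1, ArithmeticFunction.one_one, ArithmeticFunction.one_one]
    norm_num
  · rw [ArithmeticFunction.one_apply_ne h, ArithmeticFunction.one_apply_ne h]
    norm_num

/-- sums over elements and sums over norms -/
theorem HBE_sum (hSIZ : SIZ_stmt) (f : ℤ × ℤ → ℂ) (K : ℕ → ℂ) (b : ℕ) :
    ∑ z ∈ FF b, f z * K (nn z) = ∑ n ∈ Icc 1 b, rf f n * K n := by
  classical
  have hm : ∀ z ∈ FF b, nn z ∈ Icc 1 b := by
    intro z hz
    unfold FF at hz
    rw [mem_filter] at hz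
    have h1 := (hSIZ z hz.2.1).2.2.1
    rw [mem_Icc]
    exact ⟨h1, hz.2.2⟩
  rw [← sum_fiberwise_of_maps_to hm]
  refine sum_congr rfl fun n hn => ?_
  rw [mem_Icc] at hn
  unfold rf
  rw [sum_mul]
  have hset : (FF b).filter (fun z => nn z = n) = (FF n).filter (fun z => nn z = n) := by
    ext z
    rw [mem_filter, mem_filter]
    constructor
    · rintro ⟨h1, h2⟩
      refine ⟨?_, h2⟩
      unfold FF at h1
      rw [mem_filter] at h1
      have h3 := (hSIZ z h1.2.1).2.2.2.1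
      rw [h2] at h3
      exact h3
    · rintro ⟨h1, h2⟩
      refine ⟨?_, h2⟩
      unfold FF at h1 ⊢
      rw [mem_filter, mem_product, mem_Icc, mem_Icc] at h1 ⊢
      obtain ⟨⟨⟨a1, a2⟩, a3, a4⟩, a5, a6⟩ := h1
      have hnb : (n : ℤ) ≤ b := by exact_mod_cast hn.2
      exact ⟨⟨⟨by linarith, by linarith⟩, by linarith, by linarith⟩, a5, by omega⟩
  rw [hset]
  refine sum_congr rfl fun z hz => ?_
  rw [(mem_filter.1 hz).2]

/-- Dirichlet convolution against a function vanishing beyond `b` -/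
theorem HBE_dbl (A B : ArithmeticFunction ℂ) (H : ℕ → ℂ) (b : ℕ) (hH : ∀ n, b < n → H n = 0) :
    ∑ n ∈ Icc 1 b, (A * B) n * H n = ∑ n₁ ∈ Icc 1 b, ∑ n₂ ∈ Icc 1 b, A n₁ * B n₂ * H (n₁ * n₂) := by
  classical
  rw [← sum_product' (s := Icc 1 b) (t := Icc 1 b) (f := fun n₁ n₂ => A n₁ * B n₂ * H (n₁ * n₂))]
  have h1 : ∑ x ∈ Icc 1 b ×ˢ Icc 1 b, A x.1 * B x.2 * H (x.1 * x.2) =
      ∑ x ∈ (Icc 1 b ×ˢ Icc 1 b).filter (fun x => x.1 * x.2 ∈ Icc 1 b), A x.1 * B x.2 * H (x.1 * x.2) := by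
    rw [sum_filter]
    refine sum_congr rfl fun x hx => ?_
    rw [mem_product, mem_Icc, mem_Icc] at hx
    split_ifs with h
    · rfl
    · have h2 : b < x.1 * x.2 := by
        by_contra hcon
        apply h
        rw [mem_Icc]
        exact ⟨Nat.one_le_iff_ne_zero.2 (Nat.mul_ne_zero (by omega) (by omega)), by omega⟩
      rw [hH _ h2, mul_zero]
  rw [h1, ← sum_fiberwise_of_maps_to (s := (Icc 1 b ×ˢ Icc 1 b).filter (fun x => x.1 * x.2 ∈ Icc 1 b)) (t := Icc 1 b)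
    (g := fun x => x.1 * x.2) (fun x hx => (mem_filter.1 hx).2)]
  refine sum_congr rfl fun n hn => ?_
  rw [mem_Icc] at hn
  rw [ArithmeticFunction.mul_apply, sum_mul]
  have hset : ((Icc 1 b ×ˢ Icc 1 b).filter (fun x => x.1 * x.2 ∈ Icc 1 b)).filter (fun x => x.1 * x.2 = n) = n.divisorsAntidiagonal := by
    ext x
    rw [mem_filter, mem_filter, mem_product, mem_Icc, mem_Icc, mem_Icc, Nat.mem_divisorsAntidiagonal]
    constructor
    · rintro ⟨_, h2⟩
      exact ⟨h2, by omega⟩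
    · rintro ⟨h2, h3⟩
      have a1 : x.1 ≠ 0 := by
        intro h
        rw [h, zero_mul] at h2
        omega
      have a2 : x.2 ≠ 0 := by
        intro h
        rw [h, mul_zero] at h2
        omega
      have a3 : x.1 ≤ n := by rw [← h2]; exact Nat.le_mul_of_pos_right _ (by omega)
      have a4 : x.2 ≤ n := by rw [← h2]; exact Nat.le_mul_of_pos_left _ (by omega)
      exact ⟨⟨⟨⟨by omega, by omega⟩, by omega, by omega⟩, by omega, by omega⟩, h2⟩
  rw [hset]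
  refine sum_congr rfl fun x hx => ?_
  rw [Nat.mem_divisorsAntidiagonal] at hx
  rw [hx.1]

/-- the same for three factors -/
theorem HBE_trp (A B C : ArithmeticFunction ℂ) (H : ℕ → ℂ) (b : ℕ) (hH : ∀ n, b < n → H n = 0) :
    ∑ n ∈ Icc 1 b, (A * B * C) n * H n =
      ∑ n₁ ∈ Icc 1 b, ∑ n₂ ∈ Icc 1 b, ∑ n₃ ∈ Icc 1 b, A n₁ * B n₂ * C n₃ * H (n₁ * n₂ * n₃) := by
  rw [HBE_dbl (A * B) C H b hH, sum_comm]
  have h1 : ∀ n₃ ∈ Icc 1 b, ∑ m ∈ Icc 1 b, (A * B) m * C n₃ * H (m * n₃) =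
      ∑ n₁ ∈ Icc 1 b, ∑ n₂ ∈ Icc 1 b, A n₁ * B n₂ * C n₃ * H (n₁ * n₂ * n₃) := by
    intro n₃ hn₃
    rw [mem_Icc] at hn₃
    have h2 := HBE_dbl A B (fun m => C n₃ * H (m * n₃)) b (by
      intro m hm
      have : b < m * n₃ := lt_of_lt_of_le hm (Nat.le_mul_of_pos_right _ (by omega))
      show C n₃ * H (m * n₃) = 0
      rw [hH _ this, mul_zero])
    calc ∑ m ∈ Icc 1 b, (A * B) m * C n₃ * H (m * n₃) = ∑ m ∈ Icc 1 b, (A * B) m * (C n₃ * H (m * n₃)) :=
          sum_congr rfl fun m _ => by ring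
      _ = ∑ n₁ ∈ Icc 1 b, ∑ n₂ ∈ Icc 1 b, A n₁ * B n₂ * (C n₃ * H (n₁ * n₂ * n₃)) := h2
      _ = _ := sum_congr rfl fun _ _ => sum_congr rfl fun _ _ => by ring
  rw [sum_congr rfl h1, sum_comm]
  refine sum_congr rfl fun n₁ _ => ?_
  rw [sum_comm]

/-- a divisor of a rough number is rough -/
theorem HBE_rgh {Z : ℝ} {a b : ℕ} : rgh Z (a * b) ↔ rgh Z a ∧ rgh Z b := by
  unfold rgh
  constructor
  · rintro ⟨h0, h⟩
    have h1 := Nat.mul_ne_zero_iff.1 h0
    exact ⟨⟨h1.1, fun p hp hd => h p hp (hd.mul_right b)⟩, ⟨h1.2, fun p hp hd => h p hp (hd.mul_left a)⟩⟩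
  · rintro ⟨⟨h0, h1⟩, h2, h3⟩
    refine ⟨Nat.mul_ne_zero h0 h2, fun p hp hd => ?_⟩
    rcases (hp.dvd_mul).1 hd with h | h
    · exact h1 p hp h
    · exact h3 p hp h

open scoped Classical in
theorem HBE_rf_if (P : ℕ → Prop) (f : ℤ × ℤ → ℂ) (n : ℕ) :
    rf (fun z => if P (nn z) then f z else 0) n = if P n then rf f n else 0 := by
  unfold rf
  split_ifs with h
  · refine sum_congr rfl fun z hz => ?_
    show (if P (nn z) then f z else 0) = f z
    rw [(mem_filter.1 hz).2, if_pos h]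
  · refine sum_eq_zero fun z hz => ?_
    show (if P (nn z) then f z else 0) = 0
    rw [(mem_filter.1 hz).2, if_neg h]

theorem HBE_rf_congr {f g : ℤ × ℤ → ℂ} (h : ∀ z, f z = g z) (n : ℕ) : rf f n = rf g n := by
  unfold rf
  exact sum_congr rfl fun z _ => h z

/-! ## the row -/

open scoped Classical in
/-- restriction to rough numbers of `U * V = 1` -/
theorem HBE_unit {U V : ArithmeticFunction ℂ} (h : U * V = 1) (Z : ℝ) :
    HBE_af (fun n => if rgh Z n then U n else 0) * HBE_af (fun n => if rgh Z n then V n else 0) = 1 := by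
  ext n
  rw [HBE_cv]
  unfold cv
  by_cases hn : rgh Z n
  · have e1 : ∀ d ∈ n.divisorsAntidiagonal, (if rgh Z d.1 then U d.1 else 0) * (if rgh Z d.2 then V d.2 else 0) = U d.1 * V d.2 := by
      intro d hd
      rw [Nat.mem_divisorsAntidiagonal] at hd
      have h1 : rgh Z (d.1 * d.2) := by rw [hd.1]; exact hn
      rw [HBE_rgh] at h1
      rw [if_pos h1.1, if_pos h1.2]
    rw [sum_congr rfl e1, ← ArithmeticFunction.mul_apply, h]
  · have e1 : ∀ d ∈ n.divisorsAntidiagonal, (if rgh Z d.1 then U d.1 else 0) * (if rgh Z d.2 then V d.2 else 0) = 0 := by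
      intro d hd
      rw [Nat.mem_divisorsAntidiagonal] at hd
      by_cases h1 : rgh Z d.1
      · have h2 : ¬ rgh Z d.2 := by
          intro h2
          apply hn
          rw [← hd.1, HBE_rgh]
          exact ⟨h1, h2⟩
        rw [if_neg h2, mul_zero]
      · rw [if_neg h1, zero_mul]
    rw [sum_eq_zero e1]
    have hn1 : n ≠ 1 := by
      intro h1
      apply hn
      rw [h1]
      refine ⟨one_ne_zero, fun p hp hd => ?_⟩
      exact absurd (Nat.dvd_one.1 hd) hp.one_lt.ne'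
    rw [ArithmeticFunction.one_apply_ne hn1]

/-- the combinatorial identity -/
theorem HBE_id {F G : ArithmeticFunction ℂ} (h : F * G = 1) (z₀ n : ℕ) (hn : z₀ < n) (hn' : n ≤ z₀ ^ 2) :
    G n = -(trn z₀ G * trn z₀ G * F) n := by
  set T := trn z₀ G with hT
  have h1 : G = 2 * T - T * T * F + (G - T) * (G - T) * F := by
    have h2 : G * G * F = G := by
      rw [mul_assoc, mul_comm G F, h, mul_one]
    have h3 : T * G * F = T := by
      rw [mul_assoc, mul_comm G F, h, mul_one]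
    have h4 : (G - T) * (G - T) * F = G * G * F - 2 * (T * G * F) + T * T * F := by ring
    rw [h4, h2, h3]
    ring
  have h2 : ((G - T) * (G - T)) = (G - T) * (G - T) := rfl
  have hz : ∀ m : ℕ, m ≤ z₀ → (G - T) m = 0 := by
    intro m hm
    have e1 : T m = G m := by
      show (if m ≤ z₀ then G m else 0) = G m
      rw [if_pos hm]
    have e2 : (G - T) m = G m - T m := by
      rw [sub_eq_add_neg]
      rw [ArithmeticFunction.add_apply]
      rfl
    rw [e2, e1, sub_self]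
  have hT0 : T n = 0 := by
    show (if n ≤ z₀ then G n else 0) = 0
    rw [if_neg (by omega)]
  have hv : ((G - T) * (G - T) * F) n = 0 := by
    rw [ArithmeticFunction.mul_apply]
    refine sum_eq_zero fun d hd => ?_
    rw [Nat.mem_divisorsAntidiagonal] at hd
    have h3 : ((G - T) * (G - T)) d.1 = 0 := by
      rw [ArithmeticFunction.mul_apply]
      refine sum_eq_zero fun e he => ?_
      rw [Nat.mem_divisorsAntidiagonal] at he
      rcases Nat.lt_or_ge z₀ e.1 with h5 | h5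
      · rcases Nat.lt_or_ge z₀ e.2 with h6 | h6
        · exfalso
          have h7 : (z₀ + 1) * (z₀ + 1) ≤ e.1 * e.2 := Nat.mul_le_mul h5 h6
          have h8 : d.1 ≤ n := by
            rw [← hd.1]
            apply Nat.le_mul_of_pos_right
            rcases Nat.eq_zero_or_pos d.2 with h9 | h9
            · exfalso
              rw [h9, mul_zero] at hd
              exact hd.2 hd.1.symm
            · exact h9
          nlinarith
        · rw [hz _ h6, mul_zero]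
      · rw [hz _ h5, zero_mul]
    rw [h3, zero_mul]
  have h5 : G n = 2 * T n - (T * T * F) n + ((G - T) * (G - T) * F) n := by
    have h6 : (2 * T - T * T * F + (G - T) * (G - T) * F) n = 2 * T n - (T * T * F) n + ((G - T) * (G - T) * F) n := by
      rw [ArithmeticFunction.add_apply, sub_eq_add_neg, ArithmeticFunction.add_apply]
      have e3 : (2 * T) n = 2 * T n := by
        rw [two_mul, ArithmeticFunction.add_apply]
        ring
      rw [e3]
      rfl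
    rw [← h6, ← h1]
  rw [h5, hT0, hv]
  ring

theorem HBE (hGHX : GHX_stmt) (hSIZ : SIZ_stmt) : HBE_stmt := by
  classical
  intro q Ψ hΨ Z z₀ a b H hz₀ hza hb hH
  obtain ⟨g, h, hg, hh, hgh⟩ := hGHX q Ψ hΨ
  -- the two arithmetic functions
  set U : ArithmeticFunction ℂ := HBE_af g * HBE_af h with hU
  set V : ArithmeticFunction ℂ := HBE_af (mg g) * HBE_af (mg h) with hV
  have hUV : U * V = 1 := by
    rw [hU, hV]
    calc HBE_af g * HBE_af h * (HBE_af (mg g) * HBE_af (mg h)) = (HBE_af g * HBE_af (mg g)) * (HBE_af h * HBE_af (mg h)) := by ring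
      _ = 1 := by rw [HBE_mg hg, HBE_mg hh, mul_one]
  set F := HBE_af (fun n => if rgh Z n then U n else 0) with hF
  set G := HBE_af (fun n => if rgh Z n then V n else 0) with hG
  have hFG : F * G = 1 := HBE_unit hUV Z
  have hUn : ∀ n : ℕ, 1 ≤ n → U n = rf Ψ n := fun n hn => by rw [hU, HBE_cv, (hgh n hn).1]
  have hVn : ∀ n : ℕ, 1 ≤ n → V n = rf (fun z => (mue z : ℂ) * Ψ z) n := fun n hn => by rw [hV, HBE_cv, (hgh n hn).2]
  have r1 : ∀ n : ℕ, 1 ≤ n → rf (fun z => wm Z z * Ψ z) n = G n := by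
    intro n hn
    have e1 : ∀ z, wm Z z * Ψ z = if rgh Z (nn z) then (mue z : ℂ) * Ψ z else 0 := by
      intro z
      unfold wm
      split_ifs
      · rfl
      · exact zero_mul _
    rw [HBE_rf_congr e1, HBE_rf_if (rgh Z) (fun z => (mue z : ℂ) * Ψ z) n, hG, HBE_af_apply _ (by omega)]
    show _ = (if rgh Z n then V n else 0)
    rw [hVn n hn]
  have r2 : ∀ n : ℕ, 1 ≤ n → rf (fun z => ct z₀ (wm Z) z * Ψ z) n = trn z₀ G n := by
    intro n hn
    show _ = (if n ≤ z₀ then G n else 0)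
    rw [← r1 n hn]
    unfold rf
    split_ifs with h
    · refine sum_congr rfl fun z hz => ?_
      show ct z₀ (wm Z) z * Ψ z = wm Z z * Ψ z
      unfold ct
      rw [(mem_filter.1 hz).2, if_pos h]
    · refine sum_eq_zero fun z hz => ?_
      show ct z₀ (wm Z) z * Ψ z = 0
      unfold ct
      rw [(mem_filter.1 hz).2, if_neg h, zero_mul]
  have r3 : ∀ n : ℕ, 1 ≤ n → rf (fun z => w1 Z z * Ψ z) n = F n := by
    intro n hn
    have e1 : ∀ z, w1 Z z * Ψ z = if rgh Z (nn z) then Ψ z else 0 := by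
      intro z
      unfold w1
      split_ifs
      · exact one_mul _
      · exact zero_mul _
    rw [HBE_rf_congr e1, HBE_rf_if (rgh Z) Ψ n, hF, HBE_af_apply _ (by omega)]
    show _ = (if rgh Z n then U n else 0)
    rw [hUn n hn]
  have hHb : ∀ n, b < n → H n = 0 := by
    intro n hn
    by_contra hne
    have := (hH n hne).2
    omega
  -- the left side
  rw [HBE_sum hSIZ (fun z => wm Z z * Ψ z) H b]
  have hL : ∑ n ∈ Icc 1 b, rf (fun z => wm Z z * Ψ z) n * H n = -∑ n ∈ Icc 1 b, (trn z₀ G * trn z₀ G * F) n * H n := by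
    rw [← sum_neg_distrib]
    refine sum_congr rfl fun n hn => ?_
    rw [mem_Icc] at hn
    rw [r1 n hn.1]
    by_cases hne : H n = 0
    · rw [hne]
      ring
    · have h1 := hH n hne
      rw [HBE_id hFG z₀ n (by omega) (by omega)]
      ring
  rw [hL, HBE_trp _ _ _ H b hHb]
  congr 1
  -- the right side
  symm
  have s3 : ∀ z₁ ∈ FF b, ∀ z₂ ∈ FF b, ∑ z₃ ∈ FF b, ct z₀ (wm Z) z₁ * ct z₀ (wm Z) z₂ * w1 Z z₃ * (Ψ z₁ * Ψ z₂ * Ψ z₃) * H (nn z₁ * nn z₂ * nn z₃) =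
      (ct z₀ (wm Z) z₂ * Ψ z₂) * ((ct z₀ (wm Z) z₁ * Ψ z₁) * ∑ n₃ ∈ Icc 1 b, F n₃ * H (nn z₁ * nn z₂ * n₃)) := by
    intro z₁ _ z₂ _
    have e1 : ∑ n₃ ∈ Icc 1 b, F n₃ * H (nn z₁ * nn z₂ * n₃) = ∑ z₃ ∈ FF b, (w1 Z z₃ * Ψ z₃) * H (nn z₁ * nn z₂ * nn z₃) := by
      rw [HBE_sum hSIZ (fun z => w1 Z z * Ψ z) (fun n => H (nn z₁ * nn z₂ * n)) b]
      refine sum_congr rfl fun n hn => ?_
      rw [r3 n (mem_Icc.1 hn).1]
    rw [e1, mul_sum, mul_sum]
    refine sum_congr rfl fun z₃ _ => ?_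
    ring
  have s2 : ∀ z₁ ∈ FF b, ∑ z₂ ∈ FF b, (ct z₀ (wm Z) z₂ * Ψ z₂) * ((ct z₀ (wm Z) z₁ * Ψ z₁) * ∑ n₃ ∈ Icc 1 b, F n₃ * H (nn z₁ * nn z₂ * n₃)) =
      (ct z₀ (wm Z) z₁ * Ψ z₁) * ∑ n₂ ∈ Icc 1 b, trn z₀ G n₂ * ∑ n₃ ∈ Icc 1 b, F n₃ * H (nn z₁ * n₂ * n₃) := by
    intro z₁ _
    rw [HBE_sum hSIZ (fun z => ct z₀ (wm Z) z * Ψ z)
      (fun n => (ct z₀ (wm Z) z₁ * Ψ z₁) * ∑ n₃ ∈ Icc 1 b, F n₃ * H (nn z₁ * n * n₃)) b, mul_sum]
    refine sum_congr rfl fun n hn => ?_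
    rw [r2 n (mem_Icc.1 hn).1]
    ring
  calc ∑ z₁ ∈ FF b, ∑ z₂ ∈ FF b, ∑ z₃ ∈ FF b, ct z₀ (wm Z) z₁ * ct z₀ (wm Z) z₂ * w1 Z z₃ * (Ψ z₁ * Ψ z₂ * Ψ z₃) * H (nn z₁ * nn z₂ * nn z₃)
      = ∑ z₁ ∈ FF b, ∑ z₂ ∈ FF b, (ct z₀ (wm Z) z₂ * Ψ z₂) * ((ct z₀ (wm Z) z₁ * Ψ z₁) * ∑ n₃ ∈ Icc 1 b, F n₃ * H (nn z₁ * nn z₂ * n₃)) :=
        sum_congr rfl fun z₁ h₁ => sum_congr rfl fun z₂ h₂ => s3 z₁ h₁ z₂ h₂
    _ = ∑ z₁ ∈ FF b, (ct z₀ (wm Z) z₁ * Ψ z₁) * ∑ n₂ ∈ Icc 1 b, trn z₀ G n₂ * ∑ n₃ ∈ Icc 1 b, F n₃ * H (nn z₁ * n₂ * n₃) :=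
        sum_congr rfl fun z₁ h₁ => s2 z₁ h₁
    _ = ∑ n₁ ∈ Icc 1 b, trn z₀ G n₁ * ∑ n₂ ∈ Icc 1 b, trn z₀ G n₂ * ∑ n₃ ∈ Icc 1 b, F n₃ * H (n₁ * n₂ * n₃) := by
        rw [HBE_sum hSIZ (fun z => ct z₀ (wm Z) z * Ψ z)
          (fun n => ∑ n₂ ∈ Icc 1 b, trn z₀ G n₂ * ∑ n₃ ∈ Icc 1 b, F n₃ * H (n * n₂ * n₃)) b]
        exact sum_congr rfl fun n hn => by rw [r2 n (mem_Icc.1 hn).1]
    _ = _ := by
        refine sum_congr rfl fun n₁ _ => ?_
        rw [mul_sum]
        refine sum_congr rfl fun n₂ _ => ?_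
        rw [mul_sum, mul_sum]
        refine sum_congr rfl fun n₃ _ => ?_
        ring

end Pool.Agent.EU
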