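import Pool.Agent.helper94.EU.HBE

/-! # Project eu, row KCC (the coefficient of Vaughan's identity on the elements) -/

set_option autoImplicit false

open Finset

namespace Pool.Agent.EU

open Pool.Agent.FI Pool.Agent.HK Pool.Agent.BP Pool.Agent.YB
open Pool.Agent.CH (nit rgh)

theorem KCC_mc (z w : ℤ × ℤ) : mul8 z w = mul8 w z := by
  unfold mul8
  refine Prod.ext ?_ ?_
  · show z.1 * w.1 + 8 * z.2 * w.2 = w.1 * z.1 + 8 * w.2 * z.2
    ring
  · show z.1 * w.2 + z.2 * w.1 = w.1 * z.2 + w.2 * z.1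
    ring

theorem KCC_ma (z w v : ℤ × ℤ) : mul8 (mul8 z w) v = mul8 z (mul8 w v) := by
  unfold mul8
  refine Prod.ext ?_ ?_
  · show (z.1 * w.1 + 8 * z.2 * w.2) * v.1 + 8 * (z.1 * w.2 + z.2 * w.1) * v.2 =
      z.1 * (w.1 * v.1 + 8 * w.2 * v.2) + 8 * z.2 * (w.1 * v.2 + w.2 * v.1)
    ring
  · show (z.1 * w.1 + 8 * z.2 * w.2) * v.2 + (z.1 * w.2 + z.2 * w.1) * v.1 =
      z.1 * (w.1 * v.2 + w.2 * v.1) + z.2 * (w.1 * v.1 + 8 * w.2 * v.2)
    ring

theorem KCC_N8 (z w : ℤ × ℤ) : N8 (mul8 z w) = N8 z * N8 w := by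
  unfold N8 mul8
  show (z.1 * w.1 + 8 * z.2 * w.2) ^ 2 - 8 * (z.1 * w.2 + z.2 * w.1) ^ 2 = (z.1 ^ 2 - 8 * z.2 ^ 2) * (w.1 ^ 2 - 8 * w.2 ^ 2)
  ring

theorem KCC_nn (z w : ℤ × ℤ) : nn (mul8 z w) = nn z * nn w := by
  unfold nn
  rw [KCC_N8, Int.natAbs_mul]

theorem KCC_one (z : ℤ × ℤ) : mul8 (1, 0) z = z := by
  unfold mul8
  refine Prod.ext ?_ ?_
  · show 1 * z.1 + 8 * 0 * z.2 = z.1
    ring
  · show 1 * z.2 + 0 * z.1 = z.2
    ring

theorem KCC_cj {u : ℤ × ℤ} (hu : N8 u = 1) : mul8 (cj u) u = (1, 0) := by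
  unfold N8 at hu
  unfold mul8 cj
  refine Prod.ext ?_ ?_
  · show u.1 * u.1 + 8 * (-u.2) * u.2 = 1
    linarith
  · show u.1 * u.2 + -u.2 * u.1 = 0
    ring

theorem KCC_Ncj (u : ℤ × ℤ) : N8 (cj u) = N8 u := by
  unfold N8 cj
  show u.1 ^ 2 - 8 * (-u.2) ^ 2 = u.1 ^ 2 - 8 * u.2 ^ 2
  ring

theorem KCC_nnu {u : ℤ × ℤ} (hu : N8 u = 1) : nn u = 1 := by
  unfold nn
  rw [hu]
  rfl

theorem KCC_odd {z w : ℤ × ℤ} : (mul8 z w).1 % 2 = 1 ↔ z.1 % 2 = 1 ∧ w.1 % 2 = 1 := by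
  have h : (mul8 z w).1 = z.1 * w.1 + 2 * (4 * z.2 * w.2) := by
    show z.1 * w.1 + 8 * z.2 * w.2 = z.1 * w.1 + 2 * (4 * z.2 * w.2)
    ring
  rw [h]
  have h2 : (z.1 * w.1 + 2 * (4 * z.2 * w.2)) % 2 = (z.1 * w.1) % 2 := by omega
  rw [h2, ← Int.odd_iff, ← Int.odd_iff, ← Int.odd_iff, Int.odd_mul]

theorem KCC_uodd {u : ℤ × ℤ} (hu : N8 u = 1) : u.1 % 2 = 1 := by
  unfold N8 at hu
  rw [← Int.odd_iff]
  by_contra h
  rw [Int.not_odd_iff_even] at h
  obtain ⟨k, hk⟩ := h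
  rw [hk] at hu
  have : (k + k) ^ 2 - 8 * u.2 ^ 2 = 2 * (2 * k ^ 2 - 4 * u.2 ^ 2) := by ring
  omega

/-- elements of the boxes -/
theorem KCC_mem (hSIZ : SIZ_stmt) {z : ℤ × ℤ} {b : ℕ} : z ∈ FF b ↔ Fd z ∧ nn z ≤ b := by
  classical
  constructor
  · intro h
    unfold FF at h
    rw [mem_filter] at h
    exact h.2
  · rintro ⟨h1, h2⟩
    have h3 := (hSIZ z h1).2.2.2.1
    unfold FF at h3 ⊢
    rw [mem_filter, mem_product, mem_Icc, mem_Icc] at h3 ⊢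
    obtain ⟨⟨⟨a1, a2⟩, a3, a4⟩, a5, a6⟩ := h3
    have hnb : (nn z : ℤ) ≤ b := by exact_mod_cast h2
    exact ⟨⟨⟨by linarith, by linarith⟩, by linarith, by linarith⟩, h1, h2⟩

/-- squarefree norm: primitive -/
theorem KCC_prim {z : ℤ × ℤ} (h : Squarefree (nn z)) : IsCoprime z.1 z.2 := by
  rw [Int.isCoprime_iff_gcd_eq_one]
  have h1 : ((Int.gcd z.1 z.2 : ℕ) : ℤ) ∣ z.1 := Int.gcd_dvd_left ..
  have h2 : ((Int.gcd z.1 z.2 : ℕ) : ℤ) ∣ z.2 := Int.gcd_dvd_right ..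
  generalize Int.gcd z.1 z.2 = g at h1 h2 ⊢
  have h3 : (g : ℤ) * (g : ℤ) ∣ N8 z := by
    unfold N8
    obtain ⟨a, ha⟩ := h1
    obtain ⟨b, hb⟩ := h2
    refine ⟨a ^ 2 - 8 * b ^ 2, ?_⟩
    rw [ha, hb]
    ring
  have h4 : g * g ∣ nn z := by
    unfold nn
    have h5 := Int.natAbs_dvd_natAbs.2 h3
    rw [Int.natAbs_mul, Int.natAbs_natCast] at h5
    exact h5
  exact Nat.isUnit_iff.1 (h _ h4)

theorem KCC_mue {z : ℤ × ℤ} (h : Squarefree (nn z)) : mue z = (ArithmeticFunction.moebius (nn z) : ℝ) := by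
  have h1 := KCC_prim h
  rw [Int.isCoprime_iff_gcd_eq_one] at h1
  unfold mue
  rw [h1, if_pos ⟨squarefree_one, Nat.coprime_one_left _⟩, one_pow, Nat.div_one]
  have : ch8 1 = 1 := by
    unfold ch8
    rw [if_pos (Or.inl rfl)]
  rw [this, mul_one]

theorem KCC_mue_le (z : ℤ × ℤ) : |mue z| ≤ 1 := by
  unfold mue
  split_ifs
  · rw [abs_mul]
    have h1 : |((ArithmeticFunction.moebius (nn z / Int.gcd z.1 z.2 ^ 2) : ℤ) : ℝ)| ≤ 1 := by
      have := ArithmeticFunction.abs_moebius_le_one (n := nn z / Int.gcd z.1 z.2 ^ 2)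
      exact_mod_cast this
    have h2 : |ch8 (Int.gcd z.1 z.2)| ≤ 1 := by
      unfold ch8
      split_ifs <;> norm_num
    calc _ ≤ (1 : ℝ) * 1 := mul_le_mul h1 h2 (abs_nonneg _) zero_le_one
      _ = 1 := one_mul 1
  · rw [abs_zero]
    exact zero_le_one

/-- multiplicativity of the sums over the elements of given norm -/
theorem KCC_mul (hDVE : DVE_stmt) (hDVU : DVU_stmt) (hSIZ : SIZ_stmt) (hFDE : FDE_stmt) (hFDU : FDU_stmt)
    {Ψ : ℤ × ℤ → ℂ} (hΨ : MU Ψ) (m k : ℕ) (hmk : Squarefree (m * k)) : rf Ψ m * rf Ψ k = rf Ψ (m * k) := by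
  classical
  choose! un hun hfd using hFDE
  unfold rf
  rw [sum_mul_sum, ← sum_product' (f := fun z w => Ψ z * Ψ w)]
  have mem : ∀ (n : ℕ) (z : ℤ × ℤ), z ∈ (FF n).filter (fun z => nn z = n) ↔ Fd z ∧ nn z = n := by
    intro n z
    rw [mem_filter, KCC_mem hSIZ]
    constructor
    · rintro ⟨⟨h1, _⟩, h2⟩
      exact ⟨h1, h2⟩
    · rintro ⟨h1, h2⟩
      exact ⟨⟨h1, h2.le⟩, h2⟩
  have hop : ∀ x : (ℤ × ℤ) × (ℤ × ℤ), Fd x.1 → Fd x.2 → (mul8 x.1 x.2).1 % 2 = 1 := fun x h1 h2 => KCC_odd.2 ⟨h1.1, h2.1⟩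
  refine sum_bij (fun x _ => mul8 (un (mul8 x.1 x.2)) (mul8 x.1 x.2)) ?_ ?_ ?_ ?_
  · intro x hx
    rw [mem_product, mem, mem] at hx
    have ho := hop x hx.1.1 hx.2.1
    rw [mem]
    refine ⟨hfd _ ho, ?_⟩
    rw [KCC_nn, KCC_nn, KCC_nnu (hun _ ho), one_mul, hx.1.2, hx.2.2]
  · intro x hx y hy hxy
    rw [mem_product, mem, mem] at hx hy
    have hox := hop x hx.1.1 hx.2.1
    have hoy := hop y hy.1.1 hy.2.1
    set v := mul8 (un (mul8 x.1 x.2)) (mul8 x.1 x.2) with hv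
    have hvF : Fd v := hfd _ hox
    have hvn : nn v = m * k := by rw [hv, KCC_nn, KCC_nn, KCC_nnu (hun _ hox), one_mul, hx.1.2, hx.2.2]
    have hvp : IsCoprime v.1 v.2 := KCC_prim (by rw [hvn]; exact hmk)
    have e1 : mul8 x.1 (mul8 (un (mul8 x.1 x.2)) x.2) = v := by
      rw [hv, KCC_mc x.1, KCC_ma, KCC_mc x.2 x.1]
    have e2 : mul8 y.1 (mul8 (un (mul8 y.1 y.2)) y.2) = v := by
      show _ = v
      have : v = mul8 (un (mul8 y.1 y.2)) (mul8 y.1 y.2) := hxy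
      rw [this, KCC_mc y.1, KCC_ma, KCC_mc y.2 y.1]
    obtain ⟨e3, e4⟩ := hDVU v m x.1 _ y.1 _ hvF.1 hvp hx.1.1 hy.1.1 hx.1.2 hy.1.2 e1 e2
    have e5 : y.2 = mul8 (mul8 (cj (un (mul8 y.1 y.2))) (un (mul8 x.1 x.2))) x.2 := by
      rw [KCC_ma, e4, ← KCC_ma, KCC_cj (hun _ hoy), KCC_one]
    have e6 : mul8 (cj (un (mul8 y.1 y.2))) (un (mul8 x.1 x.2)) = (1, 0) := by
      refine hFDU x.2 _ hx.2.1 ?_ ?_
      · apply KCC_nnu
        rw [KCC_N8, KCC_Ncj, hun _ hoy, hun _ hox, one_mul]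
      · rw [← e5]
        exact hy.2.1
    rw [e6, KCC_one] at e5
    exact Prod.ext e3 e5.symm
  · intro v hv
    rw [mem] at hv
    have hvp : IsCoprime v.1 v.2 := KCC_prim (by rw [hv.2]; exact hmk)
    obtain ⟨z, w, hz, hzm, hzw⟩ := hDVE v m k hv.1.1 hvp hv.2
    have how : w.1 % 2 = 1 := by
      have h1 : (mul8 z w).1 % 2 = 1 := by rw [hzw]; exact hv.1.1
      exact (KCC_odd.1 h1).2
    have hm0 : m ≠ 0 := by
      rintro rfl
      rw [zero_mul] at hmk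
      exact not_squarefree_zero hmk
    have hwk : nn w = k := by
      have h1 : nn z * nn w = m * k := by rw [← KCC_nn, hzw, hv.2]
      rw [hzm] at h1
      exact Nat.eq_of_mul_eq_mul_left (Nat.pos_of_ne_zero hm0) h1
    refine ⟨(z, mul8 (un w) w), ?_, ?_⟩
    · rw [mem_product, mem, mem]
      refine ⟨⟨hz, hzm⟩, hfd _ how, ?_⟩
      show nn (mul8 (un w) w) = k
      rw [KCC_nn, KCC_nnu (hun _ how), one_mul, hwk]
    · show mul8 (un (mul8 z (mul8 (un w) w))) (mul8 z (mul8 (un w) w)) = v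
      have e1 : mul8 z (mul8 (un w) w) = mul8 (un w) v := by
        rw [← hzw, KCC_mc z, KCC_ma, KCC_mc w z]
      rw [e1, ← KCC_ma]
      have ho : (mul8 (un w) v).1 % 2 = 1 := KCC_odd.2 ⟨KCC_uodd (hun _ how), hv.1.1⟩
      have e2 : mul8 (un (mul8 (un w) v)) (un w) = (1, 0) := by
        refine hFDU v _ hv.1 ?_ ?_
        · apply KCC_nnu
          rw [KCC_N8, hun _ how, hun _ ho, one_mul]
        · rw [KCC_ma]
          exact hfd _ ho
      rw [e2, KCC_one]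
  · intro x hx
    rw [mem_product, mem, mem] at hx
    have ho := hop x hx.1.1 hx.2.1
    show Ψ x.1 * Ψ x.2 = Ψ (mul8 (un (mul8 x.1 x.2)) (mul8 x.1 x.2))
    rw [hΨ.1 _ _ (KCC_uodd (hun _ ho)) ho, hΨ.2 _ (hun _ ho), one_mul, hΨ.1 _ _ hx.1.1.1 hx.2.1.1]

/-- the weight of the pairs of norms -/
noncomputable def KCC_K2 (Z U V N₁ N N' m k : ℕ) : ℂ := by
  classical
  exact if (max N N₁ < m * k ∧ m * k ≤ N') ∧ Squarefree (m * k) then
    (if m ≤ U ∧ m.Prime ∧ Z < m then (Real.log m : ℂ) else 0) * (if k ≤ V ∧ rgh Z k then (ArithmeticFunction.moebius k : ℂ) else 0) else 0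

open scoped Classical in
theorem KCC_K2_def (Z U V N₁ N N' m k : ℕ) : KCC_K2 Z U V N₁ N N' m k =
    if (max N N₁ < m * k ∧ m * k ≤ N') ∧ Squarefree (m * k) then
    (if m ≤ U ∧ m.Prime ∧ Z < m then (Real.log m : ℂ) else 0) * (if k ≤ V ∧ rgh Z k then (ArithmeticFunction.moebius k : ℂ) else 0) else 0 := rfl

theorem KCC_rgh {Z n : ℕ} (hn : n ≠ 0) : rgh (Z : ℝ) n ↔ Pool.Agent.EU.RgN Z n := by
  unfold rgh RgN
  constructor
  · rintro ⟨_, h⟩ p hp hd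
    exact_mod_cast h p hp hd
  · intro h
    exact ⟨hn, fun p hp hd => by exact_mod_cast h p hp hd⟩

open scoped Classical in
/-- the identity of the weights -/
theorem KCC_wt (Z U V N₁ N N' n : ℕ) :
    ∑ x ∈ n.divisorsAntidiagonal, KCC_K2 Z U V N₁ N N' x.1 x.2 =
      if (N < n ∧ n ≤ N') ∧ Squarefree n then (bCc Z U V N₁ n : ℂ) else 0 := by
  by_cases h1 : (max N N₁ < n ∧ n ≤ N') ∧ Squarefree n
  · have h1' : (N < n ∧ n ≤ N') ∧ Squarefree n := ⟨⟨(le_max_left _ _).trans_lt h1.1.1, h1.1.2⟩, h1.2⟩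
    have hN1 : N₁ < n := (le_max_right _ _).trans_lt h1.1.1
    rw [if_pos h1']
    by_cases hr : RgN Z n
    · have e0 : bCc Z U V N₁ n = cc U V n := by
        unfold bCc
        rw [if_pos ⟨hN1, hr⟩]
      rw [e0]
      unfold cc
      rw [sum_filter, ← Nat.sum_divisorsAntidiagonal (f := fun m k => if m ≤ U ∧ k ≤ V then ArithmeticFunction.vonMangoldt m * (ArithmeticFunction.moebius k : ℝ) else 0)]
      push_cast
      refine sum_congr rfl fun x hx => ?_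
      rw [Nat.mem_divisorsAntidiagonal] at hx
      have hsq1 : Squarefree x.1 := h1.2.squarefree_of_dvd ⟨x.2, hx.1.symm⟩
      have hr1 : ∀ p : ℕ, p.Prime → p ∣ x.1 → Z < p := fun p hp hd => hr p hp (by rw [← hx.1]; exact hd.mul_right _)
      have hr2 : rgh (Z : ℝ) x.2 := by
        rw [KCC_rgh (fun h => hx.2 (by rw [← hx.1, h, mul_zero]))]
        exact fun p hp hd => hr p hp (by rw [← hx.1]; exact hd.mul_left _)
      have hL : ArithmeticFunction.vonMangoldt x.1 = if x.1.Prime then Real.log x.1 else 0 := by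
        split_ifs with hp
        · exact ArithmeticFunction.vonMangoldt_apply_prime hp
        · rw [ArithmeticFunction.vonMangoldt_apply, if_neg]
          intro hpp
          exact hp (Nat.squarefree_and_prime_pow_iff_prime.1 ⟨hsq1, hpp⟩)
      rw [KCC_K2_def, hx.1, if_pos h1, hL]
      by_cases hU : x.1 ≤ U
      · by_cases hV : x.2 ≤ V
        · rw [if_pos (show x.2 ≤ V ∧ rgh (Z : ℝ) x.2 from ⟨hV, hr2⟩), if_pos (show x.1 ≤ U ∧ x.2 ≤ V from ⟨hU, hV⟩)]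
          by_cases hp : x.1.Prime
          · rw [if_pos (show x.1 ≤ U ∧ x.1.Prime ∧ Z < x.1 from ⟨hU, hp, hr1 _ hp dvd_rfl⟩), if_pos hp]
            push_cast
            rfl
          · rw [if_neg (fun h => hp h.2.1), if_neg hp]
            push_cast
            rfl
        · rw [if_neg (fun h : x.2 ≤ V ∧ rgh (Z : ℝ) x.2 => hV h.1), if_neg (fun h : x.1 ≤ U ∧ x.2 ≤ V => hV h.2), mul_zero]
          rfl
      · rw [if_neg (fun h : x.1 ≤ U ∧ x.1.Prime ∧ Z < x.1 => hU h.1), if_neg (fun h : x.1 ≤ U ∧ x.2 ≤ V => hU h.1), zero_mul]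
        rfl
    · have e0 : bCc Z U V N₁ n = 0 := by
        unfold bCc
        rw [if_neg (fun h => hr h.2)]
      rw [e0]
      push_cast
      refine sum_eq_zero fun x hx => ?_
      rw [Nat.mem_divisorsAntidiagonal] at hx
      rw [KCC_K2_def, hx.1, if_pos h1]
      by_cases hp : x.1 ≤ U ∧ x.1.Prime ∧ Z < x.1
      · have h2 : ¬ rgh (Z : ℝ) x.2 := by
          intro h2
          apply hr
          intro p hpp hd
          rw [← hx.1, hpp.dvd_mul] at hd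
          rcases hd with hd | hd
          · rw [Nat.prime_dvd_prime_iff_eq hpp hp.2.1] at hd
            rw [hd]
            exact hp.2.2
          · exact_mod_cast h2.2 p hpp hd
        rw [if_neg (fun h : x.2 ≤ V ∧ rgh (Z : ℝ) x.2 => h2 h.2), mul_zero]
      · rw [if_neg hp, zero_mul]
  · have hR : (if (N < n ∧ n ≤ N') ∧ Squarefree n then (bCc Z U V N₁ n : ℂ) else 0) = 0 := by
      split_ifs with h2
      · have hN1 : ¬ N₁ < n := by
          intro h3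
          exact h1 ⟨⟨max_lt h2.1.1 h3, h2.1.2⟩, h2.2⟩
        unfold bCc
        rw [if_neg (fun h => hN1 h.1)]
        rfl
      · rfl
    rw [hR]
    refine sum_eq_zero fun x hx => ?_
    rw [Nat.mem_divisorsAntidiagonal] at hx
    rw [KCC_K2_def, hx.1, if_neg h1]

open scoped Classical in
theorem KCC_c1 {Z U : ℕ} {z : ℤ × ℤ} : ct U (wl Z) z = if nn z ≤ U ∧ (nn z).Prime ∧ Z < nn z then (Real.log (nn z) : ℂ) else 0 := by
  unfold ct wl
  by_cases h : nn z ≤ U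
  · rw [if_pos h]
    by_cases h2 : (nn z).Prime ∧ Z < nn z
    · rw [if_pos (show (nn z).Prime ∧ (Z : ℝ) < nn z from ⟨h2.1, by exact_mod_cast h2.2⟩), if_pos ⟨h, h2⟩]
    · rw [if_neg (fun h3 : (nn z).Prime ∧ (Z : ℝ) < nn z => h2 ⟨h3.1, by exact_mod_cast h3.2⟩), if_neg (fun h3 => h2 h3.2)]
  · rw [if_neg h, if_neg (fun h3 => h h3.1)]

open scoped Classical in
theorem KCC_c2 {Z V : ℕ} {z : ℤ × ℤ} (hz : Squarefree (nn z)) :
    ct V (wm Z) z = if nn z ≤ V ∧ rgh Z (nn z) then (ArithmeticFunction.moebius (nn z) : ℂ) else 0 := by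
  unfold ct wm
  by_cases h : nn z ≤ V
  · rw [if_pos h]
    by_cases h2 : rgh Z (nn z)
    · rw [if_pos h2, if_pos ⟨h, h2⟩, KCC_mue hz]
      push_cast
      rfl
    · rw [if_neg h2, if_neg (fun h3 => h2 h3.2)]
  · rw [if_neg h, if_neg (fun h3 => h h3.1)]

open scoped Classical in
/-- the squarefree part -/
theorem KCC_sf (hDVE : DVE_stmt) (hDVU : DVU_stmt) (hSIZ : SIZ_stmt) (hFDE : FDE_stmt) (hFDU : FDU_stmt)
    (Z U V N₁ N N' : ℕ) (hN' : N' ≤ 2 * N) {Ψ : ℤ × ℤ → ℂ} (hΨ : MU Ψ) :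
    ∑ z ∈ FF (2 * N), (if (N < nn z ∧ nn z ≤ N') ∧ Squarefree (nn z) then (bCc Z U V N₁ (nn z) : ℂ) * Ψ z else 0) =
    ∑ z₁ ∈ FF (2 * N), ∑ z₂ ∈ FF (2 * N), if (max N N₁ < nn z₁ * nn z₂ ∧ nn z₁ * nn z₂ ≤ N') ∧ Squarefree (nn z₁ * nn z₂) then
      ct U (wl Z) z₁ * ct V (wm Z) z₂ * (Ψ z₁ * Ψ z₂) else 0 := by
  have hK0 : ∀ m k : ℕ, 2 * N < m * k → KCC_K2 Z U V N₁ N N' m k = 0 := by
    intro m k h
    rw [KCC_K2_def, if_neg]
    intro h2
    omega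
  -- the left side
  have hL : ∑ z ∈ FF (2 * N), (if (N < nn z ∧ nn z ≤ N') ∧ Squarefree (nn z) then (bCc Z U V N₁ (nn z) : ℂ) * Ψ z else 0) =
      ∑ n ∈ Icc 1 (2 * N), rf Ψ n * (if (N < n ∧ n ≤ N') ∧ Squarefree n then (bCc Z U V N₁ n : ℂ) else 0) := by
    rw [← HBE_sum hSIZ Ψ (fun n => if (N < n ∧ n ≤ N') ∧ Squarefree n then (bCc Z U V N₁ n : ℂ) else 0) (2 * N)]
    refine sum_congr rfl fun z _ => ?_
    split_ifs
    · ring
    · rw [mul_zero]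
  -- the right side
  have hR : ∑ z₁ ∈ FF (2 * N), ∑ z₂ ∈ FF (2 * N), (if (max N N₁ < nn z₁ * nn z₂ ∧ nn z₁ * nn z₂ ≤ N') ∧ Squarefree (nn z₁ * nn z₂) then
      ct U (wl Z) z₁ * ct V (wm Z) z₂ * (Ψ z₁ * Ψ z₂) else 0) =
      ∑ m ∈ Icc 1 (2 * N), ∑ k ∈ Icc 1 (2 * N), rf Ψ m * rf Ψ k * KCC_K2 Z U V N₁ N N' m k := by
    have e1 : ∀ z₁ ∈ FF (2 * N), ∑ z₂ ∈ FF (2 * N), (if (max N N₁ < nn z₁ * nn z₂ ∧ nn z₁ * nn z₂ ≤ N') ∧ Squarefree (nn z₁ * nn z₂) then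
        ct U (wl Z) z₁ * ct V (wm Z) z₂ * (Ψ z₁ * Ψ z₂) else 0) = Ψ z₁ * ∑ k ∈ Icc 1 (2 * N), rf Ψ k * KCC_K2 Z U V N₁ N N' (nn z₁) k := by
      intro z₁ _
      rw [← HBE_sum hSIZ Ψ (fun k => KCC_K2 Z U V N₁ N N' (nn z₁) k) (2 * N), mul_sum]
      refine sum_congr rfl fun z₂ _ => ?_
      rw [KCC_K2_def]
      by_cases h1 : (max N N₁ < nn z₁ * nn z₂ ∧ nn z₁ * nn z₂ ≤ N') ∧ Squarefree (nn z₁ * nn z₂)
      · rw [if_pos h1, if_pos h1, KCC_c1, KCC_c2 (h1.2.squarefree_of_dvd (dvd_mul_left _ _))]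
        ring
      · rw [if_neg h1, if_neg h1, mul_zero, mul_zero]
    rw [sum_congr rfl e1, HBE_sum hSIZ Ψ (fun m => ∑ k ∈ Icc 1 (2 * N), rf Ψ k * KCC_K2 Z U V N₁ N N' m k) (2 * N)]
    refine sum_congr rfl fun m _ => ?_
    rw [mul_sum]
    exact sum_congr rfl fun k _ => by ring
  rw [hL, hR]
  have e2 : ∀ m ∈ Icc 1 (2 * N), ∀ k ∈ Icc 1 (2 * N), rf Ψ m * rf Ψ k * KCC_K2 Z U V N₁ N N' m k = rf Ψ (m * k) * KCC_K2 Z U V N₁ N N' m k := by
    intro m _ k _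
    by_cases h : Squarefree (m * k)
    · rw [KCC_mul hDVE hDVU hSIZ hFDE hFDU hΨ m k h]
    · rw [KCC_K2_def, if_neg (fun h2 => h h2.2), mul_zero, mul_zero]
  rw [sum_congr rfl fun m hm => sum_congr rfl fun k hk => e2 m hm k hk]
  rw [← sum_product' (s := Icc 1 (2 * N)) (t := Icc 1 (2 * N)) (f := fun m k => rf Ψ (m * k) * KCC_K2 Z U V N₁ N N' m k)]
  have h1 : ∑ x ∈ Icc 1 (2 * N) ×ˢ Icc 1 (2 * N), rf Ψ (x.1 * x.2) * KCC_K2 Z U V N₁ N N' x.1 x.2 =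
      ∑ x ∈ (Icc 1 (2 * N) ×ˢ Icc 1 (2 * N)).filter (fun x => x.1 * x.2 ∈ Icc 1 (2 * N)), rf Ψ (x.1 * x.2) * KCC_K2 Z U V N₁ N N' x.1 x.2 := by
    rw [sum_filter]
    refine sum_congr rfl fun x hx => ?_
    rw [mem_product, mem_Icc, mem_Icc] at hx
    split_ifs with h
    · rfl
    · have h2 : 2 * N < x.1 * x.2 := by
        by_contra hcon
        apply h
        rw [mem_Icc]
        exact ⟨Nat.one_le_iff_ne_zero.2 (Nat.mul_ne_zero (by omega) (by omega)), by omega⟩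
      rw [hK0 _ _ h2, mul_zero]
  rw [h1, ← sum_fiberwise_of_maps_to (s := (Icc 1 (2 * N) ×ˢ Icc 1 (2 * N)).filter (fun x => x.1 * x.2 ∈ Icc 1 (2 * N))) (t := Icc 1 (2 * N))
    (g := fun x => x.1 * x.2) (fun x hx => (mem_filter.1 hx).2)]
  refine sum_congr rfl fun n hn => ?_
  rw [mem_Icc] at hn
  have hset : ((Icc 1 (2 * N) ×ˢ Icc 1 (2 * N)).filter (fun x => x.1 * x.2 ∈ Icc 1 (2 * N))).filter (fun x => x.1 * x.2 = n) = n.divisorsAntidiagonal := by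
    ext x
    rw [mem_filter, mem_filter, mem_product, mem_Icc, mem_Icc, mem_Icc, Nat.mem_divisorsAntidiagonal]
    constructor
    · rintro ⟨_, h2⟩
      exact ⟨h2, by omega⟩
    · rintro ⟨h2, h3⟩
      have a1 : x.1 ≠ 0 := by
        intro h
        rw [h, zero_mul] at h2
        omega
      have a2 : x.2 ≠ 0 := by
        intro h
        rw [h, mul_zero] at h2
        omega
      have a3 : x.1 ≤ n := by rw [← h2]; exact Nat.le_mul_of_pos_right _ (by omega)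
      have a4 : x.2 ≤ n := by rw [← h2]; exact Nat.le_mul_of_pos_left _ (by omega)
      exact ⟨⟨⟨⟨by omega, by omega⟩, by omega, by omega⟩, by omega, by omega⟩, h2⟩
  rw [hset, ← KCC_wt Z U V N₁ N N' n, mul_sum]
  refine sum_congr rfl fun x hx => ?_
  rw [Nat.mem_divisorsAntidiagonal] at hx
  rw [hx.1]

theorem KCC_cc_le (U V n : ℕ) : |cc U V n| ≤ Real.log n := by
  unfold cc
  calc |∑ m ∈ n.divisors with m ≤ U ∧ n / m ≤ V, ArithmeticFunction.vonMangoldt m * (ArithmeticFunction.moebius (n / m) : ℝ)|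
      ≤ ∑ m ∈ n.divisors with m ≤ U ∧ n / m ≤ V, |ArithmeticFunction.vonMangoldt m * (ArithmeticFunction.moebius (n / m) : ℝ)| := abs_sum_le_sum_abs _ _
    _ ≤ ∑ m ∈ n.divisors with m ≤ U ∧ n / m ≤ V, ArithmeticFunction.vonMangoldt m := by
        refine sum_le_sum fun m _ => ?_
        rw [abs_mul, abs_of_nonneg ArithmeticFunction.vonMangoldt_nonneg]
        have h1 : |((ArithmeticFunction.moebius (n / m) : ℤ) : ℝ)| ≤ 1 := by
          have := ArithmeticFunction.abs_moebius_le_one (n := n / m)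
          exact_mod_cast this
        calc _ ≤ ArithmeticFunction.vonMangoldt m * 1 := mul_le_mul_of_nonneg_left h1 ArithmeticFunction.vonMangoldt_nonneg
          _ = _ := mul_one _
    _ ≤ ∑ m ∈ n.divisors, ArithmeticFunction.vonMangoldt m :=
        sum_le_sum_of_subset_of_nonneg (filter_subset _ _) fun _ _ _ => ArithmeticFunction.vonMangoldt_nonneg
    _ = Real.log n := ArithmeticFunction.vonMangoldt_sum

theorem KCC (hPR2 : PR2_stmt) (hDVE : DVE_stmt) (hDVU : DVU_stmt) (hSIZ : SIZ_stmt) (hFDE : FDE_stmt) (hFDU : FDU_stmt) : KCC_stmt := by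
  classical
  intro Z U V N₁ N N' hN hNN' hN'
  have hlog : 0 ≤ Real.log (2 * N) := Real.log_nonneg (by
    have : (1 : ℝ) ≤ N := by exact_mod_cast hN
    linarith)
  -- the two functions
  set F : ℤ × ℤ → ℤ × ℤ → ℂ := fun z₁ z₂ => if (max N N₁ < nn z₁ * nn z₂ ∧ nn z₁ * nn z₂ ≤ N') ∧ ¬ Squarefree (nn z₁ * nn z₂) then
    ct U (wl Z) z₁ * ct V (wm Z) z₂ else 0 with hF
  set G : ℕ → ℝ := fun n => if 1 ≤ n then Real.log (2 * N) else 0 with hG
  have hG0 : ∀ n, 0 ≤ G n := by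
    intro n
    show 0 ≤ (if 1 ≤ n then Real.log (2 * N) else 0)
    split_ifs
    · exact hlog
    · exact le_rfl
  have hFG : ∀ z ∈ FF (2 * N), ∀ w ∈ FF (2 * N), ‖F z w‖ ≤ G (nn z * nn w) := by
    intro z hz w hw
    rw [KCC_mem hSIZ] at hz hw
    have h1 := (hSIZ z hz.1).2.2.1
    have h2 := (hSIZ w hw.1).2.2.1
    have h3 : 1 ≤ nn z * nn w := Nat.mul_pos h1 h2
    have h4 : G (nn z * nn w) = Real.log (2 * N) := if_pos h3
    rw [h4]
    show ‖(if _ then _ else (0 : ℂ))‖ ≤ _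
    split_ifs
    · rw [norm_mul]
      have c1 : ‖ct U (wl Z) z‖ ≤ Real.log (2 * N) := by
        rw [KCC_c1]
        split_ifs
        · rw [Complex.norm_real, Real.norm_of_nonneg (Real.log_natCast_nonneg _)]
          apply Real.log_le_log (by exact_mod_cast h1)
          exact_mod_cast hz.2
        · rw [norm_zero]
          exact hlog
      have c2 : ‖ct V (wm Z) w‖ ≤ 1 := by
        unfold ct wm
        split_ifs
        · rw [Complex.norm_real]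
          exact KCC_mue_le w
        · rw [norm_zero]
          exact zero_le_one
        · rw [norm_zero]
          exact zero_le_one
      calc _ ≤ Real.log (2 * N) * 1 := mul_le_mul c1 c2 (norm_nonneg _) hlog
        _ = _ := mul_one _
    · rw [norm_zero]
      exact hlog
  obtain ⟨b₂, hb1, hb2, hb3⟩ := hPR2 (2 * N) (2 * N) F G (by omega) (by omega) hG0 hFG
  set b₁ : ℤ × ℤ → ℂ := fun v => if (N < nn v ∧ nn v ≤ N') ∧ ¬ Squarefree (nn v) ∧ IsCoprime v.1 v.2 then (bCc Z U V N₁ (nn v) : ℂ) else 0 with hb₁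
  refine ⟨fun v => b₁ v - b₂ v, ?_, ?_, ?_⟩
  · intro v
    rcases Nat.eq_zero_or_pos (nn v) with h0 | h0
    · have e1 : b₁ v = 0 := by
        show (if _ then _ else (0 : ℂ)) = 0
        rw [if_neg]
        intro h
        omega
      have e2 : b₂ v = 0 := by
        have := hb1 v
        rw [h0, Nat.divisors_zero, card_empty, Nat.cast_zero, zero_pow (by norm_num), zero_mul] at this
        exact norm_le_zero_iff.1 this
      show ‖b₁ v - b₂ v‖ ≤ _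
      rw [e1, e2, sub_zero, norm_zero]
      positivity
    · have ht : (1 : ℝ) ≤ (#(nn v).divisors : ℝ) := by
        have : 0 < #(nn v).divisors := Finset.card_pos.2 ⟨1, Nat.one_mem_divisors.2 h0.ne'⟩
        exact_mod_cast this
      have ht3 : (1 : ℝ) ≤ (#(nn v).divisors : ℝ) ^ 3 := one_le_pow₀ ht
      have e1 : ‖b₁ v‖ ≤ Real.log (2 * N) := by
        show ‖(if _ then _ else (0 : ℂ))‖ ≤ _
        split_ifs with h
        · rw [Complex.norm_real]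
          have h5 : |bCc Z U V N₁ (nn v)| ≤ Real.log (nn v) := by
            unfold bCc
            split_ifs
            · exact KCC_cc_le U V _
            · rw [abs_zero]
              exact Real.log_natCast_nonneg _
          refine h5.trans (Real.log_le_log (by exact_mod_cast h0) ?_)
          have : nn v ≤ 2 * N := h.1.2.trans hN'
          exact_mod_cast this
        · rw [norm_zero]
          exact hlog
      have e2 : ‖b₂ v‖ ≤ (#(nn v).divisors : ℝ) ^ 3 * Real.log (2 * N) := by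
        have := hb1 v
        have h4 : G (nn v) = Real.log (2 * N) := if_pos h0
        rwa [h4] at this
      show ‖b₁ v - b₂ v‖ ≤ _
      calc ‖b₁ v - b₂ v‖ ≤ ‖b₁ v‖ + ‖b₂ v‖ := norm_sub_le _ _
        _ ≤ Real.log (2 * N) + (#(nn v).divisors : ℝ) ^ 3 * Real.log (2 * N) := add_le_add e1 e2
        _ ≤ _ := by nlinarith
  · intro v hv
    have hv' : b₁ v - b₂ v ≠ 0 := hv
    have key : ∀ n : ℕ, RgN Z n → ¬ Squarefree n → ∃ p : ℕ, p.Prime ∧ Z < p ∧ p ^ 2 ∣ n := by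
      intro n hr hs
      rw [Nat.squarefree_iff_prime_squarefree] at hs
      push Not at hs
      obtain ⟨p, hp, hd⟩ := hs
      exact ⟨p, hp, hr p hp ((dvd_mul_right p p).trans hd), by rw [sq]; exact hd⟩
    by_cases h1 : b₁ v = 0
    · have h2 : b₂ v ≠ 0 := by
        intro h2
        rw [h1, h2, sub_zero] at hv'
        exact hv' rfl
      obtain ⟨z, hz, w, hw, hFz, hnn⟩ := hb2 v h2
      rw [KCC_mem hSIZ] at hz hw
      have hFz' : (if (max N N₁ < nn z * nn w ∧ nn z * nn w ≤ N') ∧ ¬ Squarefree (nn z * nn w) then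
        ct U (wl Z) z * ct V (wm Z) w else 0) ≠ 0 := hFz
      rw [ite_ne_right_iff] at hFz'
      obtain ⟨hc, hne⟩ := hFz'
      have h3 := left_ne_zero_of_mul hne
      have h4 := right_ne_zero_of_mul hne
      rw [KCC_c1, ite_ne_right_iff] at h3
      have h5 : rgh (Z : ℝ) (nn w) := by
        by_contra h5
        apply h4
        unfold ct wm
        rw [if_neg h5, ite_self]
      rw [hnn]
      refine key _ ?_ hc.2
      intro p hp hd
      rcases (hp.dvd_mul).1 hd with hd | hd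
      · rw [Nat.prime_dvd_prime_iff_eq hp h3.1.2.1] at hd
        rw [hd]
        exact h3.1.2.2
      · exact_mod_cast h5.2 p hp hd
    · have h1' : (if (N < nn v ∧ nn v ≤ N') ∧ ¬ Squarefree (nn v) ∧ IsCoprime v.1 v.2 then (bCc Z U V N₁ (nn v) : ℂ) else 0) ≠ 0 := h1
      rw [ite_ne_right_iff] at h1'
      refine key _ ?_ h1'.1.2.1
      by_contra h2
      apply h1'.2
      unfold bCc
      rw [if_neg (fun h3 => h2 h3.2)]
      rfl
  · intro Ψ hΨ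
    have hsf := KCC_sf hDVE hDVU hSIZ hFDE hFDU Z U V N₁ N N' hN' hΨ
    have hns := hb3 Ψ hΨ
    -- restriction of the second sum
    have hres : ∑ v ∈ FF (2 * N * (2 * N)), b₂ v * Ψ v = ∑ v ∈ FF (2 * N), b₂ v * Ψ v := by
      symm
      refine sum_subset ?_ ?_
      · intro z hz
        rw [KCC_mem hSIZ] at hz ⊢
        refine ⟨hz.1, hz.2.trans ?_⟩
        exact Nat.le_mul_of_pos_right _ (by omega)
      · intro z hz hz2
        rw [KCC_mem hSIZ] at hz hz2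
        have h1 : b₂ z = 0 := by
          by_contra h2
          obtain ⟨z', hz', w', hw', hFz, hnn⟩ := hb2 z h2
          have hFz' : (if (max N N₁ < nn z' * nn w' ∧ nn z' * nn w' ≤ N') ∧ ¬ Squarefree (nn z' * nn w') then
            ct U (wl Z) z' * ct V (wm Z) w' else 0) ≠ 0 := hFz
          rw [ite_ne_right_iff] at hFz'
          apply hz2
          refine ⟨hz.1, ?_⟩
          rw [hnn]
          exact hFz'.1.1.2.trans hN'
        rw [h1, zero_mul]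
    rw [hres] at hns
    -- the left side
    have hL : ∑ z ∈ ZD N with nn z ≤ N', (bCc Z U V N₁ (nn z) : ℂ) * Ψ z =
        ∑ z ∈ FF (2 * N), (if (N < nn z ∧ nn z ≤ N') ∧ Squarefree (nn z) then (bCc Z U V N₁ (nn z) : ℂ) * Ψ z else 0) + ∑ z ∈ FF (2 * N), b₁ z * Ψ z := by
      unfold ZD
      rw [filter_filter, sum_filter, ← sum_add_distrib]
      refine sum_congr rfl fun z _ => ?_
      show _ = _ + (if _ then _ else (0 : ℂ)) * Ψ z
      by_cases h1 : N < nn z ∧ nn z ≤ N'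
      · by_cases h2 : Squarefree (nn z)
        · rw [if_pos (show (N < nn z ∧ IsCoprime z.1 z.2) ∧ nn z ≤ N' from ⟨⟨h1.1, KCC_prim h2⟩, h1.2⟩),
            if_pos (show (N < nn z ∧ nn z ≤ N') ∧ Squarefree (nn z) from ⟨h1, h2⟩), if_neg (fun h => h.2.1 h2), zero_mul, add_zero]
        · rw [if_neg (fun h : (N < nn z ∧ nn z ≤ N') ∧ Squarefree (nn z) => h2 h.2), zero_add]
          by_cases h3 : IsCoprime z.1 z.2
          · rw [if_pos (show (N < nn z ∧ IsCoprime z.1 z.2) ∧ nn z ≤ N' from ⟨⟨h1.1, h3⟩, h1.2⟩), if_pos ⟨h1, h2, h3⟩]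
          · rw [if_neg (fun h : (N < nn z ∧ IsCoprime z.1 z.2) ∧ nn z ≤ N' => h3 h.1.2), if_neg (fun h => h3 h.2.2), zero_mul]
      · rw [if_neg (fun h : (N < nn z ∧ IsCoprime z.1 z.2) ∧ nn z ≤ N' => h1 ⟨h.1.1, h.2⟩),
          if_neg (fun h : (N < nn z ∧ nn z ≤ N') ∧ Squarefree (nn z) => h1 h.1), if_neg (fun h => h1 h.1), zero_mul, add_zero]
    -- the double sum
    have hR : (∑ z₁ ∈ FF (2 * N), ∑ z₂ ∈ FF (2 * N), if max N N₁ < nn z₁ * nn z₂ ∧ nn z₁ * nn z₂ ≤ N' then ct U (wl Z) z₁ * ct V (wm Z) z₂ * (Ψ z₁ * Ψ z₂) else 0) =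
        (∑ z₁ ∈ FF (2 * N), ∑ z₂ ∈ FF (2 * N), if (max N N₁ < nn z₁ * nn z₂ ∧ nn z₁ * nn z₂ ≤ N') ∧ Squarefree (nn z₁ * nn z₂) then
          ct U (wl Z) z₁ * ct V (wm Z) z₂ * (Ψ z₁ * Ψ z₂) else 0) + ∑ z₁ ∈ FF (2 * N), ∑ z₂ ∈ FF (2 * N), F z₁ z₂ * (Ψ z₁ * Ψ z₂) := by
      rw [← sum_add_distrib]
      refine sum_congr rfl fun z₁ _ => ?_
      rw [← sum_add_distrib]
      refine sum_congr rfl fun z₂ _ => ?_
      show _ = _ + (if _ then _ else (0 : ℂ)) * (Ψ z₁ * Ψ z₂)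
      by_cases h1 : max N N₁ < nn z₁ * nn z₂ ∧ nn z₁ * nn z₂ ≤ N'
      · by_cases h2 : Squarefree (nn z₁ * nn z₂)
        · rw [if_pos h1, if_pos ⟨h1, h2⟩, if_neg (fun h => h.2 h2), zero_mul, add_zero]
        · rw [if_pos h1, if_neg (fun h : (max N N₁ < nn z₁ * nn z₂ ∧ nn z₁ * nn z₂ ≤ N') ∧ Squarefree (nn z₁ * nn z₂) => h2 h.2), if_pos ⟨h1, h2⟩, zero_add]
      · rw [if_neg h1, if_neg (fun h : (max N N₁ < nn z₁ * nn z₂ ∧ nn z₁ * nn z₂ ≤ N') ∧ Squarefree (nn z₁ * nn z₂) => h1 h.1), if_neg (fun h => h1 h.1), zero_mul, add_zero]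
    rw [hL, hR, hsf, hns]
    have hS : ∑ v ∈ FF (2 * N), (b₁ v - b₂ v) * Ψ v = ∑ v ∈ FF (2 * N), b₁ v * Ψ v - ∑ v ∈ FF (2 * N), b₂ v * Ψ v := by
      rw [← sum_sub_distrib]
      exact sum_congr rfl fun v _ => by ring
    show _ = _ + ∑ v ∈ FF (2 * N), (b₁ v - b₂ v) * Ψ v
    rw [hS]
    ring

end Pool.Agent.EU
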