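import Pool.Agent.helper94.EU.SpecII

/-! # Project eu, row RGV (the region in hyperbolic coordinates) -/

set_option autoImplicit false

open Finset

namespace Pool.Agent.EU

open Pool.Agent.FI Pool.Agent.FJ

private lemma RGV_exp {n : ℕ} (hn : 0 < n) : Real.exp (Real.log n / 2) = √(n : ℝ) := by
  have hn0 : (0 : ℝ) < n := by exact_mod_cast hn
  have h1 : Real.exp (Real.log n / 2) ^ 2 = √(n : ℝ) ^ 2 := by
    rw [← Real.exp_nat_mul, Real.sq_sqrt hn0.le]
    have : ((2 : ℕ) : ℝ) * (Real.log n / 2) = Real.log n := by push_cast; ring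
    rw [this, Real.exp_log hn0]
  exact (pow_left_inj₀ (Real.exp_pos _).le (Real.sqrt_nonneg _) (by norm_num)).1 h1

private lemma RGV_uu {z : ℤ × ℤ} {l : ℤ} (hn : 0 < nn z) (hl : 0 < l) : Real.exp (uu z l) = l / √(nn z) := by
  have hl0 : (0 : ℝ) < l := by exact_mod_cast hl
  unfold uu
  rw [Real.exp_sub, Real.exp_log hl0, RGV_exp hn]

private lemma RGV_sq (z z' : ℤ × ℤ) : (sp z z' : ℝ) ^ 2 = N8 z * N8 z' + 8 * (dl z z' : ℝ) ^ 2 := by
  unfold sp dl N8
  push_cast
  ring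

private lemma RGV_sgn {n n' X : ℝ} (h1 : 0 < n * X) (h2 : 0 < n' * X) : 0 < n * n' := by
  have h3 : 0 < n * X * (n' * X) := mul_pos h1 h2
  have h4 : n * X * (n' * X) = n * n' * X ^ 2 := by ring
  rw [h4] at h3
  by_contra hcon
  rw [not_lt] at hcon
  have := mul_nonpos_of_nonpos_of_nonneg hcon (sq_nonneg X)
  linarith

theorem RGV (hGEO : GEO_stmt) : RGV_stmt := by
  intro x N A hx hN hAx z hz z' hz' hdl l₁ l₂ h1 h1' h2 h2'
  have hmem : ∀ w ∈ ZD N, N < nn w ∧ nn w ≤ 2 * N := by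
    classical
    intro w hw
    unfold ZD at hw
    rw [mem_filter] at hw
    obtain ⟨g1, g2, _⟩ := hw
    unfold FF at g1
    rw [mem_filter] at g1
    exact ⟨g2, g1.2.2⟩
  obtain ⟨hn1, hn2⟩ := hmem z hz
  obtain ⟨hn1', hn2'⟩ := hmem z' hz'
  have hx0 : (0 : ℝ) < x := by exact_mod_cast hx
  have hl1 : (x : ℝ) < l₁ := by exact_mod_cast h1
  have hl2 : (x : ℝ) < l₂ := by exact_mod_cast h2
  have hl1' : (l₁ : ℝ) ≤ 2 * x := by exact_mod_cast h1'
  have hl2' : (l₂ : ℝ) ≤ 2 * x := by exact_mod_cast h2'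
  have hD : (dl z z' : ℝ) ≠ 0 := by exact_mod_cast hdl
  have hAx' : (A : ℝ) ≤ x := by exact_mod_cast hAx
  refine ⟨fun hne => ?_, fun hs => ?_⟩
  · have hc : 0 < a1 z z' l₁ l₂ ∧ a1 z z' l₁ l₂ ≤ A ∧ 0 < a2 z z' l₁ l₂ ∧ a2 z z' l₁ l₂ ≤ A := by
      by_contra hcon
      exact hne (by unfold Ind; rw [if_neg hcon])
    obtain ⟨c1, c2, c3, c4⟩ := hc
    set a := a1 z z' l₁ l₂ with ha
    set a' := a2 z z' l₁ l₂ with ha'
    set D : ℝ := (dl z z' : ℝ) with hDd
    set s : ℝ := (sp z z' : ℝ) with hsd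
    set n : ℝ := (N8 z : ℝ) with hnd
    set n' : ℝ := (N8 z' : ℝ) with hnd'
    have e1 : D * a = s * l₁ - n * l₂ := by
      have h : a = (s * l₁ - n * l₂) / D := rfl
      rw [h, mul_div_cancel₀ _ hD]
    have e2 : D * a' = n' * l₁ - s * l₂ := by
      have h : a' = (n' * l₁ - s * l₂) / D := rfl
      rw [h, mul_div_cancel₀ _ hD]
    have hsq : s ^ 2 = n * n' + 8 * D ^ 2 := RGV_sq z z'
    have k1 : D ^ 2 * (8 * (l₁ : ℝ) ^ 2 - a ^ 2) = n * (D * (a * l₂ - a' * l₁)) := by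
      have : D ^ 2 * (8 * (l₁ : ℝ) ^ 2 - a ^ 2) = 8 * D ^ 2 * (l₁ : ℝ) ^ 2 - (D * a) ^ 2 := by ring
      rw [this, e1]
      have h3 : n * (D * (a * l₂ - a' * l₁)) = n * ((D * a) * l₂ - (D * a') * l₁) := by ring
      rw [h3, e1, e2]
      linear_combination (-(l₁ : ℝ) ^ 2) * hsq
    have k2 : D ^ 2 * (8 * (l₂ : ℝ) ^ 2 - a' ^ 2) = n' * (D * (a * l₂ - a' * l₁)) := by
      have : D ^ 2 * (8 * (l₂ : ℝ) ^ 2 - a' ^ 2) = 8 * D ^ 2 * (l₂ : ℝ) ^ 2 - (D * a') ^ 2 := by ring
      rw [this, e2]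
      have h3 : n' * (D * (a * l₂ - a' * l₁)) = n' * ((D * a) * l₂ - (D * a') * l₁) := by ring
      rw [h3, e1, e2]
      linear_combination (-(l₂ : ℝ) ^ 2) * hsq
    have b1 : 7 * (x : ℝ) ^ 2 ≤ 8 * (l₁ : ℝ) ^ 2 - a ^ 2 := by nlinarith
    have b2 : 7 * (x : ℝ) ^ 2 ≤ 8 * (l₂ : ℝ) ^ 2 - a' ^ 2 := by nlinarith
    have hD2 : 0 < D ^ 2 := by positivity
    have p1 : 0 < n * (D * (a * l₂ - a' * l₁)) := by
      rw [← k1]
      exact mul_pos hD2 (by nlinarith)
    have p2 : 0 < n' * (D * (a * l₂ - a' * l₁)) := by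
      rw [← k2]
      exact mul_pos hD2 (by nlinarith)
    have hnn' : 0 < n * n' := RGV_sgn p1 p2
    have hnn'' : 0 < N8 z * N8 z' := by
      rw [hnd, hnd'] at hnn'
      exact_mod_cast hnn'
    refine ⟨?_, ?_⟩
    · rcases lt_trichotomy (N8 z) 0 with h | h | h
      · have h' : N8 z' < 0 := by
          by_contra hcon
          rw [not_lt] at hcon
          have := mul_nonpos_of_nonpos_of_nonneg h.le hcon
          omega
        rw [Int.sign_eq_neg_one_of_neg h, Int.sign_eq_neg_one_of_neg h']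
      · rw [h, zero_mul] at hnn''
        exact absurd hnn'' (lt_irrefl _)
      · have h' : 0 < N8 z' := by
          by_contra hcon
          rw [not_lt] at hcon
          have := mul_nonpos_of_nonneg_of_nonpos h.le hcon
          omega
        rw [Int.sign_eq_one_of_pos h, Int.sign_eq_one_of_pos h']
    · have hnabs : |n| ≤ 2 * N := by
        have : |n| = (nn z : ℝ) := by
          rw [hnd]
          unfold nn
          rw [Nat.cast_natAbs, Int.cast_abs]
        rw [this]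
        exact_mod_cast hn2
      have q1 : |a * l₂ - a' * l₁| ≤ 2 * x * A := by
        have u1 : 0 < a * l₂ := mul_pos c1 (by linarith)
        have u2 : 0 < a' * l₁ := mul_pos c3 (by linarith)
        have u3 : a * l₂ ≤ A * (2 * x) := mul_le_mul c2 hl2' (by linarith) (by positivity)
        have u4 : a' * l₁ ≤ A * (2 * x) := mul_le_mul c4 hl1' (by linarith) (by positivity)
        rw [abs_le]
        constructor <;> nlinarith
      have q2 : |D| * (7 * (x : ℝ) ^ 2) ≤ 2 * N * (2 * x * A) := by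
        have v1 : |D| * (8 * (l₁ : ℝ) ^ 2 - a ^ 2) = |n| * |a * l₂ - a' * l₁| := by
          have v2 : D * (8 * (l₁ : ℝ) ^ 2 - a ^ 2) = n * (a * l₂ - a' * l₁) := by
            have v3 : D * (D * (8 * (l₁ : ℝ) ^ 2 - a ^ 2)) = D * (n * (a * l₂ - a' * l₁)) := by
              linear_combination k1
            exact mul_left_cancel₀ hD v3
          rw [← abs_mul, ← v2, abs_mul]
          congr 1
          exact (abs_of_nonneg (by nlinarith)).symm
        calc |D| * (7 * (x : ℝ) ^ 2) ≤ |D| * (8 * (l₁ : ℝ) ^ 2 - a ^ 2) := mul_le_mul_of_nonneg_left b1 (abs_nonneg _)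
          _ = |n| * |a * l₂ - a' * l₁| := v1
          _ ≤ 2 * N * (2 * x * A) := mul_le_mul hnabs q1 (abs_nonneg _) (by positivity)
      have q3 : (x : ℝ) * |D| ≤ N * A := by
        have v4 : (x : ℝ) * |D| * (7 * x) ≤ N * A * (4 * x) := by nlinarith
        have v5 : 0 ≤ (x : ℝ) * |D| := by positivity
        have v6 : (x : ℝ) * |D| * (4 * x) ≤ N * A * (4 * x) := by nlinarith
        exact le_of_mul_le_mul_right v6 (by positivity)
      have q4 : |D| = ((dl z z').natAbs : ℝ) := by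
        rw [hDd, Nat.cast_natAbs, Int.cast_abs]
      rw [q4] at q3
      exact_mod_cast q3
  · obtain ⟨g1, g2, _⟩ := hGEO N hN z hz z' hz' hs
    set s₀ : ℝ := ((N8 z).sign : ℝ) with hs₀
    have hN8 : (N8 z : ℝ) = s₀ * nn z := by
      have h := Int.sign_mul_abs (N8 z)
      rw [hs₀]
      unfold nn
      rw [Nat.cast_natAbs]
      exact_mod_cast h.symm
    have hN8' : (N8 z' : ℝ) = s₀ * nn z' := by
      have h := Int.sign_mul_abs (N8 z')
      rw [hs₀, hs]
      unfold nn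
      rw [Nat.cast_natAbs]
      exact_mod_cast h.symm
    have hz0 : (0 : ℝ) < nn z := by
      have : 0 < nn z := by omega
      exact_mod_cast this
    have hz0' : (0 : ℝ) < nn z' := by
      have : 0 < nn z' := by omega
      exact_mod_cast this
    set Z : ℝ := √(nn z) with hZ
    set Z' : ℝ := √(nn z') with hZ'
    have hZ0 : 0 < Z := Real.sqrt_pos.2 hz0
    have hZ0' : 0 < Z' := Real.sqrt_pos.2 hz0'
    have hZ2 : (nn z : ℝ) = Z ^ 2 := (Real.sq_sqrt hz0.le).symm
    have hZ2' : (nn z' : ℝ) = Z' ^ 2 := (Real.sq_sqrt hz0'.le).symm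
    have h8 : √8 * √8 = 8 := Real.mul_self_sqrt (by norm_num)
    have h80 : 0 < √8 := by positivity
    have hs0 : s₀ ≠ 0 := by
      intro h0
      rw [h0, zero_mul] at g1
      exact hD (by
        rcases mul_eq_zero.1 g1 with h | h
        · exact absurd h h80.ne'
        · exact h)
    have hsh : Real.sinh (dd z z') ≠ 0 := by
      intro h0
      rw [h0, mul_zero, mul_zero] at g1
      exact hD (by
        rcases mul_eq_zero.1 g1 with h | h
        · exact absurd h h80.ne'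
        · exact h)
    have hl10 : (0 : ℝ) < l₁ := by linarith
    have hl20 : (0 : ℝ) < l₂ := by linarith
    have u1 : Real.exp (uu z l₁) = l₁ / Z := RGV_uu (by omega) (by exact_mod_cast hl10)
    have u2 : Real.exp (uu z' l₂) = l₂ / Z' := RGV_uu (by omega) (by exact_mod_cast hl20)
    have ev : Real.exp (uu z' l₂ - uu z l₁) = l₂ * Z / (l₁ * Z') := by
      rw [Real.exp_sub, u1, u2]
      field_simp
    have ev' : Real.exp (-(uu z' l₂ - uu z l₁)) = l₁ * Z' / (l₂ * Z) := by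
      rw [Real.exp_neg, ev, inv_div]
    have hdl' : (dl z z' : ℝ) = s₀ * (Z * Z' * Real.sinh (dd z z')) / √8 := by
      rw [eq_div_iff h80.ne', ← g1]
      ring
    refine ⟨?_, ?_⟩
    · unfold a1
      rw [g2, hdl', hN8, hZ2, ev]
      field_simp
    · unfold a2
      rw [g2, hdl', hN8', hZ2', ev']
      field_simp

end Pool.Agent.EU
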