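import Pool.Agent.helper94.EU.SpecII

/-! # Project eu, row ZON (the zone) -/

set_option autoImplicit false

open Finset

namespace Pool.Agent.EU

open Pool.Agent.FI Pool.Agent.FJ

private lemma ZON_exp (W C₂ : ℝ) {w κ v : ℝ} (hw : 0 < w) (hwW : w ≤ W) (hκ : κ ≤ C₂) (h : |v - Real.log w| ≤ κ) :
    |Real.exp v - w| ≤ W * Real.exp C₂ * κ := by
  have hκ0 : 0 ≤ κ := (abs_nonneg _).trans h
  have hW : 0 < W := hw.trans_le hwW
  set t := v - Real.log w with ht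
  have e1 : Real.exp v = w * Real.exp t := by
    rw [ht, Real.exp_sub, Real.exp_log hw]
    field_simp
  have e2 : |Real.exp t - 1| ≤ Real.exp C₂ * κ := by
    have h1 := Real.add_one_le_exp t
    have h2 := Real.add_one_le_exp (-t)
    have h3 : Real.exp (-t) * Real.exp t = 1 := by rw [← Real.exp_add]; simp
    have h4 : 0 < Real.exp t := Real.exp_pos t
    have h5 : 1 ≤ Real.exp C₂ := by
      have := Real.add_one_le_exp C₂
      linarith [hκ0.trans hκ]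
    rw [abs_le] at h
    rw [abs_le]
    constructor
    · nlinarith
    · rcases le_or_gt 0 t with h0 | h0
      · have h6 : Real.exp t - 1 ≤ t * Real.exp t := by nlinarith
        have h7 : Real.exp t ≤ Real.exp C₂ := Real.exp_le_exp.2 (h.2.trans hκ)
        have h8 : t * Real.exp t ≤ κ * Real.exp C₂ := mul_le_mul h.2 h7 h4.le hκ0
        linarith
      · have h6 : Real.exp t < 1 := by
          rw [← Real.exp_zero]
          exact Real.exp_lt_exp.2 h0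
        have h7 : 0 ≤ Real.exp C₂ * κ := by positivity
        linarith
  rw [e1]
  have e3 : w * Real.exp t - w = w * (Real.exp t - 1) := by ring
  rw [e3, abs_mul, abs_of_pos hw]
  calc w * |Real.exp t - 1| ≤ W * (Real.exp C₂ * κ) := mul_le_mul hwW e2 (abs_nonneg _) hW.le
    _ = W * Real.exp C₂ * κ := by ring

private lemma ZON_w {δ τ : ℝ} (hδ : |δ| ≤ 3) (hτ : |τ| ≤ 1 / 2) :
    0 < Real.cosh δ + τ * Real.sinh δ ∧ Real.cosh δ + τ * Real.sinh δ ≤ 2 * Real.cosh 3 := by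
  have h1 : |Real.sinh δ| ≤ Real.cosh δ := by
    rw [abs_le]
    constructor
    · have := Real.exp_pos δ
      rw [Real.sinh_eq, Real.cosh_eq]
      linarith
    · exact (Real.sinh_lt_cosh δ).le
  have h2 : 0 < Real.cosh δ := Real.cosh_pos δ
  have h3 : Real.cosh δ ≤ Real.cosh 3 := by
    rw [Real.cosh_le_cosh]
    rw [abs_of_nonneg (by norm_num : (0 : ℝ) ≤ 3)]
    exact hδ
  have h4 : |τ * Real.sinh δ| ≤ 1 / 2 * Real.cosh δ := by
    rw [abs_mul]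
    exact mul_le_mul hτ h1 (abs_nonneg _) (by norm_num)
  rw [abs_le] at h4
  constructor
  · linarith [h4.1]
  · linarith [h4.2]

/-- near an end point one of the four expressions is small -/
private lemma ZON_end (C₂ : ℝ) {δ τ₁ τ₂ v κ : ℝ} (h3 : |δ| ≤ 3) (ht1 : |τ₁| ≤ 1 / 2) (ht2 : |τ₂| ≤ 1 / 2) (hκ : κ ≤ C₂)
    (h : |v - loE δ τ₁ τ₂| ≤ κ ∨ |v - hiE δ τ₁ τ₂| ≤ κ) :
    |Real.exp v - (Real.cosh δ - τ₁ * Real.sinh δ)| ≤ 2 * Real.cosh 3 * Real.exp C₂ * κ ∨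
    |Real.exp (-v) - (Real.cosh δ + τ₂ * Real.sinh δ)| ≤ 2 * Real.cosh 3 * Real.exp C₂ * κ ∨
    |Real.exp (-v) - Real.cosh δ| ≤ 2 * Real.cosh 3 * Real.exp C₂ * κ ∨
    |Real.exp v - Real.cosh δ| ≤ 2 * Real.cosh 3 * Real.exp C₂ * κ := by
  have w1 := ZON_w h3 (τ := -τ₁) (by rw [abs_neg]; exact ht1)
  have w2 := ZON_w h3 ht2
  have w3 := ZON_w h3 (τ := 0) (by norm_num)
  have e1 : Real.cosh δ + -τ₁ * Real.sinh δ = Real.cosh δ - τ₁ * Real.sinh δ := by ring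
  rw [e1] at w1
  have e3 : Real.cosh δ + 0 * Real.sinh δ = Real.cosh δ := by ring
  rw [e3] at w3
  have hneg : ∀ w : ℝ, |v - -Real.log w| ≤ κ → |-v - Real.log w| ≤ κ := by
    intro w hw
    have e : -v - Real.log w = -(v - -Real.log w) := by ring
    rw [e, abs_neg]
    exact hw
  have k1 : |v - Real.log (Real.cosh δ - τ₁ * Real.sinh δ)| ≤ κ → |Real.exp v - (Real.cosh δ - τ₁ * Real.sinh δ)| ≤ 2 * Real.cosh 3 * Real.exp C₂ * κ :=
    fun hh => ZON_exp _ C₂ w1.1 w1.2 hκ hh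
  have k2 : |v - -Real.log (Real.cosh δ + τ₂ * Real.sinh δ)| ≤ κ → |Real.exp (-v) - (Real.cosh δ + τ₂ * Real.sinh δ)| ≤ 2 * Real.cosh 3 * Real.exp C₂ * κ :=
    fun hh => ZON_exp _ C₂ w2.1 w2.2 hκ (hneg _ hh)
  have k3 : |v - -Real.log (Real.cosh δ)| ≤ κ → |Real.exp (-v) - Real.cosh δ| ≤ 2 * Real.cosh 3 * Real.exp C₂ * κ :=
    fun hh => ZON_exp _ C₂ w3.1 w3.2 hκ (hneg _ hh)
  have k4 : |v - Real.log (Real.cosh δ)| ≤ κ → |Real.exp v - Real.cosh δ| ≤ 2 * Real.cosh 3 * Real.exp C₂ * κ :=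
    fun hh => ZON_exp _ C₂ w3.1 w3.2 hκ hh
  unfold loE hiE at h
  by_cases hd : 0 < δ
  · rw [if_pos hd, if_pos hd] at h
    rcases h with h | h
    · rcases max_choice (Real.log (Real.cosh δ - τ₁ * Real.sinh δ)) (-Real.log (Real.cosh δ + τ₂ * Real.sinh δ)) with hm | hm
      · rw [hm] at h
        exact Or.inl (k1 h)
      · rw [hm] at h
        exact Or.inr (Or.inl (k2 h))
    · exact Or.inr (Or.inr (Or.inl (k3 h)))
  · rw [if_neg hd, if_neg hd] at h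
    rcases h with h | h
    · exact Or.inr (Or.inr (Or.inr (k4 h)))
    · rcases min_choice (Real.log (Real.cosh δ - τ₁ * Real.sinh δ)) (-Real.log (Real.cosh δ + τ₂ * Real.sinh δ)) with hm | hm
      · rw [hm] at h
        exact Or.inl (k1 h)
      · rw [hm] at h
        exact Or.inr (Or.inl (k2 h))

/-- the abstract comparison: `I = 1` between the true end points, tents between the model end points -/
private lemma ZON_cmp {I ρ lo hi lo' hi' v c : ℝ} (hT : TNQ_stmt) (hρ : 0 < ρ) (h01 : I = 0 ∨ I = 1)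
    (hI1 : I = 1 → lo ≤ v ∧ v ≤ hi) (hI2 : lo < v → v < hi → I = 1)
    (hlo : |lo - lo'| ≤ c * ρ) (hhi : |hi - hi'| ≤ c * ρ) (hc : 0 ≤ c) :
    |I - tns ρ lo' hi' v| ≤ 1 ∧ (I ≠ tns ρ lo' hi' v → |v - lo| ≤ (c + 3) * ρ ∨ |v - hi| ≤ (c + 3) * ρ) := by
  obtain ⟨t1, t2, t3, _⟩ := hT ρ lo' hi' hρ
  have h1 := t1 v
  refine ⟨?_, ?_⟩
  · rcases h01 with h | h
    · rw [h, abs_le]
      constructor <;> linarith [h1.1, h1.2]
    · rw [h, abs_le]
      constructor <;> linarith [h1.1, h1.2]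
  · intro hne
    by_contra hcon
    rw [not_or, not_le, not_le] at hcon
    obtain ⟨ha, hb⟩ := hcon
    rw [abs_le] at hlo hhi
    have hcρ : 0 ≤ c * ρ := mul_nonneg hc hρ.le
    have h3ρ : (c + 3) * ρ = c * ρ + 3 * ρ := by ring
    rw [h3ρ] at ha hb
    rcases lt_abs.1 ha with ha' | ha'
    · rcases lt_abs.1 hb with hb' | hb'
      · -- v > hi + ..
        have hz : tns ρ lo' hi' v = 0 := t2 v (Or.inr (by linarith [hhi.1]))
        have hI : I = 0 := by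
          rcases h01 with h | h
          · exact h
          · have := (hI1 h).2
            linarith
        exact hne (by rw [hI, hz])
      · have hz : tns ρ lo' hi' v = 1 := t3 v (by linarith [hlo.1]) (by linarith [hhi.2])
        have hI : I = 1 := hI2 (by linarith) (by linarith)
        exact hne (by rw [hI, hz])
    · have hz : tns ρ lo' hi' v = 0 := t2 v (Or.inl (by linarith [hlo.2]))
      have hI : I = 0 := by
        rcases h01 with h | h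
        · exact h
        · have := (hI1 h).1
          linarith
      exact hne (by rw [hI, hz])

theorem ZON (hRGV : RGV_stmt) (hINT : INT_stmt) (hLIP : LIP_stmt) (hTNQ : TNQ_stmt) (hWND : WND_stmt) (hKRN : KRN_stmt) (hGEO : GEO_stmt) : ZON_stmt := by
  obtain ⟨CL, hCL, hL⟩ := hLIP
  obtain ⟨CK, hCK, hK⟩ := hKRN
  set C₂ : ℝ := CL * (5 / 2) + 3 with hC₂
  have hC₂0 : 0 < C₂ := by positivity
  refine ⟨8 * √8 * (2 * Real.cosh 3 * Real.exp C₂ * C₂), by have := Real.cosh_pos 3; positivity, ?_⟩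
  intro x N A K K₁ hx hN hA hAx hK₁ hKK θ p hp b hb b' hb' l₁ hl₁ l₂ hl₂
  obtain ⟨hdl, hpos, hδm, hδ4, hm4, hm3, hδlow, _, _, _⟩ := hK x N A K K₁ hx hN hA hAx hK₁ hKK θ p hp
  have hPW := (mem_filter.1 hp).1
  have hsg : (N8 p.1).sign = (N8 p.2).sign := (mem_filter.1 hp).2.1
  obtain ⟨hz, hz'⟩ := mem_product.1 hPW
  obtain ⟨_, _, hδ2⟩ := hGEO N hN p.1 hz p.2 hz' hsg
  set m : ℤ := kk (hh x A K) θ p.1 - kk (hh x A K) θ p.2 with hm
  set δ : ℝ := dd p.1 p.2 with hδ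
  set δm : ℝ := (m : ℝ) * hh x A K / 2 with hδmd
  have hx0 : (0 : ℝ) < x := by exact_mod_cast hx
  have hA0 : (0 : ℝ) < A := by exact_mod_cast hA
  have hK1 : 1 ≤ K := by omega
  have hK0 : (0 : ℝ) < K := by exact_mod_cast hK1
  have hK₁0 : (0 : ℝ) < K₁ := by exact_mod_cast hK₁
  have hU : (0 : ℝ) < A / x := by positivity
  have hU1 : (A : ℝ) / x ≤ 1 := by
    rw [div_le_one hx0]
    exact_mod_cast hAx
  obtain ⟨_, _, _, hW4⟩ := hWND
  obtain ⟨a1', a2', a3', a4', a5'⟩ := hW4 x A K b hx hA hAx hK1 l₁ hl₁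
  obtain ⟨b1', b2', b3', b4', b5'⟩ := hW4 x A K b' hx hA hAx hK1 l₂ hl₂
  have hb1 := (mem_filter.1 hl₁).1
  have hb2 := (mem_filter.1 hl₂).1
  rw [mem_Ioc] at hb1 hb2
  have hl₁0 : (0 : ℝ) < (l₁ : ℝ) := by
    have : (0 : ℤ) < l₁ := by have := hb1.1; omega
    exact_mod_cast this
  have hl₂0 : (0 : ℝ) < (l₂ : ℝ) := by
    have : (0 : ℤ) < l₂ := by have := hb2.1; omega
    exact_mod_cast this
  have hl₁x : (l₁ : ℝ) ≤ 2 * x := by exact_mod_cast hb1.2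
  have hl₂x : (l₂ : ℝ) ≤ 2 * x := by exact_mod_cast hb2.2
  set τ₁ : ℝ := A / (√8 * (l₁ : ℝ)) with hτ₁
  set τ₂ : ℝ := A / (√8 * (l₂ : ℝ)) with hτ₂
  have hs8 : (0 : ℝ) < √8 := by positivity
  have hτA1 : √8 * (l₁ : ℝ) * τ₁ = A := by
    rw [hτ₁]
    field_simp
  have hτA2 : √8 * (l₂ : ℝ) * τ₂ = A := by
    rw [hτ₂]
    field_simp
  set v : ℝ := uu p.2 l₂ - uu p.1 l₁ with hv
  set ρ : ℝ := rr x A K with hρ
  have hρ0 : 0 < ρ := by
    rw [hρ]
    unfold rr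
    positivity
  have hρU : ρ = (A / x) * (A / x / K) := by
    rw [hρ]
    unfold rr
    field_simp
  have hρ1 : ρ ≤ 1 := by
    rw [hρU]
    have h1 : (A : ℝ) / x / K ≤ 1 := by
      rw [div_le_one hK0]
      have : (1 : ℝ) ≤ K := by exact_mod_cast hK1
      linarith
    have h2 : 0 ≤ (A : ℝ) / x / K := by positivity
    calc (A : ℝ) / x * (A / x / K) ≤ 1 * 1 := mul_le_mul hU1 h1 h2 (by norm_num)
      _ = 1 := by norm_num
  have hδ0 : δ ≠ 0 := by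
    intro h0
    rw [h0, zero_mul] at hpos
    exact lt_irrefl _ hpos
  have hδ3 : |δ| ≤ 3 := by linarith
  have ht1 : τ₁ ≤ 1 / 2 := by linarith
  have ht2 : τ₂ ≤ 1 / 2 := by linarith
  obtain ⟨L1, L2, _, _⟩ := hL (A / x) hU hU1 δ δm τ₁ (tb x A K b) τ₂ (tb x A K b') hpos hδ4 hm4 hδ3 hm3 a4' a5' a2' a3' b4' b5' b2' b3'
  have hhh : hh x A K = A / x / K := by
    unfold hh
    rw [div_div]
  have hsum : |δ - δm| + |τ₁ - tb x A K b| + |τ₂ - tb x A K b'| ≤ 5 / 2 * (A / x / K) := by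
    have e1 : (A : ℝ) / (x * K) = A / x / K := by rw [div_div]
    rw [e1] at a1' b1'
    rw [hhh] at hδm
    linarith
  have hUC : 0 ≤ CL * ((A : ℝ) / x) := by positivity
  have L1' : |loE δ τ₁ τ₂ - loE δm (tb x A K b) (tb x A K b')| ≤ CL * (5 / 2) * ρ := by
    refine L1.trans ((mul_le_mul_of_nonneg_left hsum hUC).trans (le_of_eq ?_))
    rw [hρU]
    ring
  have L2' : |hiE δ τ₁ τ₂ - hiE δm (tb x A K b) (tb x A K b')| ≤ CL * (5 / 2) * ρ := by
    refine L2.trans ((mul_le_mul_of_nonneg_left hsum hUC).trans (le_of_eq ?_))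
    rw [hρU]
    ring
  obtain ⟨R1, R2⟩ := hRGV x N A hx hN hAx p.1 hz p.2 hz' hdl l₁ l₂ hb1.1 hb1.2 hb2.1 hb2.2
  obtain ⟨R2a, R2b⟩ := R2 hsg
  obtain ⟨I1, I2⟩ := hINT δ τ₁ τ₂ v hδ0 hδ3 a4' ht1 b4' ht2
  -- the indicator in terms of the four conditions
  have hl8 : 0 < √8 * (l₁ : ℝ) := by positivity
  have hl8' : 0 < √8 * (l₂ : ℝ) := by positivity
  have hIff : (0 < a1 p.1 p.2 l₁ l₂ ∧ a1 p.1 p.2 l₁ l₂ ≤ A ∧ 0 < a2 p.1 p.2 l₁ l₂ ∧ a2 p.1 p.2 l₁ l₂ ≤ A) ↔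
      (0 < (Real.cosh δ - Real.exp v) / Real.sinh δ ∧ (Real.cosh δ - Real.exp v) / Real.sinh δ ≤ τ₁ ∧
      0 < (Real.exp (-v) - Real.cosh δ) / Real.sinh δ ∧ (Real.exp (-v) - Real.cosh δ) / Real.sinh δ ≤ τ₂) := by
    rw [R2a, R2b]
    have c1 : (0 < √8 * (l₁ : ℝ) * ((Real.cosh δ - Real.exp v) / Real.sinh δ)) ↔ 0 < (Real.cosh δ - Real.exp v) / Real.sinh δ :=
      mul_pos_iff_of_pos_left hl8
    have c2 : (√8 * (l₁ : ℝ) * ((Real.cosh δ - Real.exp v) / Real.sinh δ) ≤ A) ↔ (Real.cosh δ - Real.exp v) / Real.sinh δ ≤ τ₁ := by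
      rw [← hτA1]
      exact mul_le_mul_iff_right₀ hl8
    have c3 : (0 < √8 * (l₂ : ℝ) * ((Real.exp (-v) - Real.cosh δ) / Real.sinh δ)) ↔ 0 < (Real.exp (-v) - Real.cosh δ) / Real.sinh δ :=
      mul_pos_iff_of_pos_left hl8'
    have c4 : (√8 * (l₂ : ℝ) * ((Real.exp (-v) - Real.cosh δ) / Real.sinh δ) ≤ A) ↔ (Real.exp (-v) - Real.cosh δ) / Real.sinh δ ≤ τ₂ := by
      rw [← hτA2]
      exact mul_le_mul_iff_right₀ hl8'
    rw [c1, c2, c3, c4]
  have h01 : Ind A p.1 p.2 l₁ l₂ = 0 ∨ Ind A p.1 p.2 l₁ l₂ = 1 := by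
    unfold Ind
    split_ifs
    · exact Or.inr rfl
    · exact Or.inl rfl
  have hI1 : Ind A p.1 p.2 l₁ l₂ = 1 → loE δ τ₁ τ₂ ≤ v ∧ v ≤ hiE δ τ₁ τ₂ := by
    intro h
    apply I1
    apply hIff.1
    by_contra hcon
    unfold Ind at h
    rw [if_neg hcon] at h
    norm_num at h
  have hI2 : loE δ τ₁ τ₂ < v → v < hiE δ τ₁ τ₂ → Ind A p.1 p.2 l₁ l₂ = 1 := by
    intro h h'
    unfold Ind
    rw [if_pos (hIff.2 (I2 h h'))]
  have hcmp := ZON_cmp hTNQ hρ0 h01 hI1 hI2 L1' L2' (by positivity)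
  have hKT : KT x A K m b b' v = tns ρ (loE δm (tb x A K b) (tb x A K b')) (hiE δm (tb x A K b) (tb x A K b')) v := rfl
  rw [hKT]
  refine ⟨hcmp.1, fun hne => ?_⟩
  have hend := ZON_end C₂ hδ3 (by rw [abs_of_nonneg a4']; exact ht1) (by rw [abs_of_nonneg b4']; exact ht2)
    (κ := C₂ * ρ) (by nlinarith) (hcmp.2 hne)
  set W : ℝ := 2 * Real.cosh 3 * Real.exp C₂ with hW
  have hW0 : 0 < W := by
    have := Real.cosh_pos 3
    positivity
  -- the lower bound of sinh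
  have hsinh : (A : ℝ) / (x * (4 * K₁)) ≤ |Real.sinh δ| := by
    refine hδlow.trans ?_
    rw [Real.abs_sinh]
    exact Real.self_le_sinh_iff.2 (abs_nonneg δ)
  have hsinh0 : 0 < |Real.sinh δ| := lt_of_lt_of_le (by positivity) hsinh
  have hsne : Real.sinh δ ≠ 0 := abs_pos.1 hsinh0
  have key : ∀ l y : ℝ, 0 < l → l ≤ 2 * x → |y| ≤ W * (C₂ * ρ) →
      |√8 * l * (y / Real.sinh δ)| ≤ 8 * √8 * (2 * Real.cosh 3 * Real.exp C₂ * C₂) * (A * K₁ / K) := by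
    intro l y hl hlx hy
    rw [abs_mul, abs_div, abs_of_pos (by positivity : 0 < √8 * l)]
    have h1 : |y| / |Real.sinh δ| ≤ W * (C₂ * ρ) / (A / (x * (4 * K₁))) :=
      div_le_div₀ (by positivity) hy (by positivity) hsinh
    have h2 : √8 * l ≤ √8 * (2 * x) := mul_le_mul_of_nonneg_left hlx hs8.le
    calc √8 * l * (|y| / |Real.sinh δ|) ≤ √8 * (2 * x) * (W * (C₂ * ρ) / (A / (x * (4 * K₁)))) :=
          mul_le_mul h2 h1 (by positivity) (by positivity)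
      _ = 8 * √8 * (2 * Real.cosh 3 * Real.exp C₂ * C₂) * (A * K₁ / K) := by
          rw [hρU, hW]
          field_simp
          ring
  have hWC : W * (C₂ * ρ) = 2 * Real.cosh 3 * Real.exp C₂ * (C₂ * ρ) := by rw [hW]
  rcases hend with h | h | h | h
  · refine ⟨A, Or.inr rfl, Or.inl ?_⟩
    rw [R2a]
    have e : √8 * (l₁ : ℝ) * ((Real.cosh δ - Real.exp v) / Real.sinh δ) - A =
        √8 * (l₁ : ℝ) * (-(Real.exp v - (Real.cosh δ - τ₁ * Real.sinh δ)) / Real.sinh δ) := by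
      rw [← hτA1]
      field_simp
      ring
    rw [e]
    exact key _ _ hl₁0 hl₁x (by rw [abs_neg]; exact h)
  · refine ⟨A, Or.inr rfl, Or.inr ?_⟩
    rw [R2b]
    have e : √8 * (l₂ : ℝ) * ((Real.exp (-v) - Real.cosh δ) / Real.sinh δ) - A =
        √8 * (l₂ : ℝ) * ((Real.exp (-v) - (Real.cosh δ + τ₂ * Real.sinh δ)) / Real.sinh δ) := by
      rw [← hτA2]
      field_simp
      ring
    rw [e]
    exact key _ _ hl₂0 hl₂x h
  · refine ⟨0, Or.inl rfl, Or.inr ?_⟩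
    rw [R2b, sub_zero]
    exact key _ _ hl₂0 hl₂x h
  · refine ⟨0, Or.inl rfl, Or.inl ?_⟩
    rw [R2a, sub_zero]
    exact key _ _ hl₁0 hl₁x (by rw [abs_sub_comm]; exact h)

end Pool.Agent.EU
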