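import Pool.Agent.helper52.EU.Defs

/-!
# Project eu (MP_ad8ced_nt: almost all primes `p`), interface of block Y and part II
-/

set_option autoImplicit false

open Finset

noncomputable section

namespace Pool.Agent.EU

open Pool.Agent.FI Pool.Agent.FJ

open scoped Classical in
/-- the sum over a window in the angle, a residue class and a sign of the norm -/
def ZW (N q : ℕ) (c : ℤ × ℤ) (sg : ℤ) (β : ℤ × ℤ → ℝ) (y h t : ℝ) : ℂ :=
  ∑ z ∈ ZD N with ((q : ℤ) ∣ z.1 - c.1 ∧ (q : ℤ) ∣ z.2 - c.2 ∧ (N8 z).sign = sg ∧ y < yy z ∧ yy z ≤ y + h),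
    (β z : ℂ) * (nn z : ℂ) ^ (-(1 / 2 : ℂ) + t * Complex.I)

/-- the interface between block Y and part II (`L = log x`, one exponent `E`): `L²` over the angle, fixed `t`, `|t| ≤ T` -/
def YH (x N A E : ℕ) (T : ℝ) (β : ℤ × ℤ → ℝ) : Prop :=
  ∀ q : ℕ, 1 ≤ q → (q : ℝ) ≤ Real.log x ^ E → ∀ (c : ℤ × ℤ) (sg : ℤ) (h : ℝ),
    A / (x * Real.log x ^ E) ≤ h → h ≤ A / x → ∀ t : ℝ, |t| ≤ T →
    ∫ y : ℝ, ‖ZW N q c sg β y h t‖ ^ 2 ≤ N * h ^ 2 / Real.log x ^ E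

end Pool.Agent.EU
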