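import Pool.Agent.helper94.EU.HBE

/-! # Project eu, row RSE (rough = smooth Möbius * all) -/

set_option autoImplicit false

open Finset

namespace Pool.Agent.EU

open Pool.Agent.FI Pool.Agent.HK Pool.Agent.BP Pool.Agent.YB
open Pool.Agent.CH (nit rgh)

/-- a divisor of a smooth number is smooth -/
theorem RSE_smt {Z : ℝ} {a b : ℕ} : smt Z (a * b) ↔ smt Z a ∧ smt Z b := by
  unfold smt
  constructor
  · intro h
    exact ⟨fun p hp hd => h p hp (hd.mul_right b), fun p hp hd => h p hp (hd.mul_left a)⟩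
  · rintro ⟨h1, h3⟩ p hp hd
    rcases (hp.dvd_mul).1 hd with h | h
    · exact h1 p hp h
    · exact h3 p hp h

theorem RSE_rg (Z : ℝ) (g h : ℕ → ℂ) (n : ℕ) (hn : rgh Z n) : cv (rg Z g) (rg Z h) n = cv g h n := by
  classical
  unfold cv
  refine sum_congr rfl fun d hd => ?_
  rw [Nat.mem_divisorsAntidiagonal] at hd
  have h1 : rgh Z (d.1 * d.2) := by rw [hd.1]; exact hn
  rw [HBE_rgh] at h1
  unfold rg
  rw [if_pos h1.1, if_pos h1.2]

theorem RSE_rg0 (Z : ℝ) (g h : ℕ → ℂ) (n : ℕ) (hn : ¬ rgh Z n) : cv (rg Z g) (rg Z h) n = 0 := by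
  classical
  unfold cv
  refine sum_eq_zero fun d hd => ?_
  rw [Nat.mem_divisorsAntidiagonal] at hd
  unfold rg
  by_cases h1 : rgh Z d.1
  · have h2 : ¬ rgh Z d.2 := by
      intro h2
      apply hn
      rw [← hd.1, HBE_rgh]
      exact ⟨h1, h2⟩
    rw [if_neg h2, mul_zero]
  · rw [if_neg h1, zero_mul]

theorem RSE_ms (Z : ℝ) (g : ℕ → ℂ) (n : ℕ) (hn : smt Z n) : ms Z g n = mg g n := by
  classical
  unfold ms
  exact if_pos hn

theorem RSE_ms0 (Z : ℝ) (g : ℕ → ℂ) (n : ℕ) (hn : ¬ smt Z n) : ms Z g n = 0 := by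
  classical
  unfold ms
  exact if_neg hn

theorem RSE_hs (Z : ℝ) (g h : ℕ → ℂ) (n : ℕ) (hn : smt Z n) : hs Z g h n = cv (mg g) (mg h) n := by
  classical
  unfold hs cv
  refine sum_congr rfl fun d hd => ?_
  rw [Nat.mem_divisorsAntidiagonal] at hd
  have h1 : smt Z (d.1 * d.2) := by rw [hd.1]; exact hn
  rw [RSE_smt] at h1
  rw [RSE_ms Z g _ h1.1, RSE_ms Z h _ h1.2]

theorem RSE_hs0 (Z : ℝ) (g h : ℕ → ℂ) (n : ℕ) (hn : ¬ smt Z n) : hs Z g h n = 0 := by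
  classical
  unfold hs cv
  refine sum_eq_zero fun d hd => ?_
  rw [Nat.mem_divisorsAntidiagonal] at hd
  by_cases h1 : smt Z d.1
  · have h2 : ¬ smt Z d.2 := by
      intro h2
      apply hn
      rw [← hd.1, RSE_smt]
      exact ⟨h1, h2⟩
    rw [RSE_ms0 Z h _ h2, mul_zero]
  · rw [RSE_ms0 Z g _ h1, zero_mul]

theorem RSE (hGHX : GHX_stmt) (hHSF : HSF_stmt) (hSIZ : SIZ_stmt) : RSE_stmt := by
  classical
  intro q Ψ hΨ Z N H hH
  obtain ⟨g, h, hg, hh, hgh⟩ := hGHX q Ψ hΨ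
  set A : ArithmeticFunction ℂ := HBE_af (hs Z g h) with hA
  set B : ArithmeticFunction ℂ := HBE_af (cv g h) with hB
  have hHb : ∀ n, N < n → H n = 0 := by
    intro n hn
    by_contra hne
    have := hH n hne
    omega
  have r1 : ∀ n : ℕ, 1 ≤ n → rf (fun z => w1 Z z * Ψ z) n = (A * B) n := by
    intro n hn
    have e1 : ∀ z, w1 Z z * Ψ z = if rgh Z (nn z) then Ψ z else 0 := by
      intro z
      unfold w1
      split_ifs
      · exact one_mul _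
      · exact zero_mul _
    rw [HBE_rf_congr e1, HBE_rf_if (rgh Z) Ψ n, hA, hB, HBE_cv, ← (hHSF.1 Z g h hg hh n hn).1]
    split_ifs with hr
    · rw [RSE_rg Z g h n hr, (hgh n hn).1]
    · rw [RSE_rg0 Z g h n hr]
  have r2 : ∀ n : ℕ, 1 ≤ n → rf (fun z => if smt Z (nn z) then (mue z : ℂ) * Ψ z else 0) n = A n := by
    intro n hn
    rw [HBE_rf_if (smt Z) (fun z => (mue z : ℂ) * Ψ z) n, hA, HBE_af_apply _ (by omega)]
    split_ifs with hr
    · rw [RSE_hs Z g h n hr, (hgh n hn).2]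
    · rw [RSE_hs0 Z g h n hr]
  have r3 : ∀ n : ℕ, 1 ≤ n → rf Ψ n = B n := by
    intro n hn
    rw [hB, HBE_af_apply _ (by omega), (hgh n hn).1]
  rw [HBE_sum hSIZ (fun z => w1 Z z * Ψ z) H N]
  have hL : ∑ n ∈ Icc 1 N, rf (fun z => w1 Z z * Ψ z) n * H n = ∑ n ∈ Icc 1 N, (A * B) n * H n :=
    sum_congr rfl fun n hn => by rw [r1 n (mem_Icc.1 hn).1]
  rw [hL, HBE_dbl _ _ H N hHb]
  symm
  have s2 : ∀ w ∈ FF N, ∑ v ∈ FF N, (mue w : ℂ) * (Ψ w * Ψ v) * H (nn w * nn v) =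
      ((mue w : ℂ) * Ψ w) * ∑ n₂ ∈ Icc 1 N, B n₂ * H (nn w * n₂) := by
    intro w _
    have e1 : ∑ n₂ ∈ Icc 1 N, B n₂ * H (nn w * n₂) = ∑ v ∈ FF N, Ψ v * H (nn w * nn v) := by
      rw [HBE_sum hSIZ Ψ (fun n => H (nn w * n)) N]
      refine sum_congr rfl fun n hn => ?_
      rw [r3 n (mem_Icc.1 hn).1]
    rw [e1, mul_sum]
    refine sum_congr rfl fun v _ => ?_
    ring
  calc ∑ w ∈ FF N with smt Z (nn w), ∑ v ∈ FF N, (mue w : ℂ) * (Ψ w * Ψ v) * H (nn w * nn v)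
      = ∑ w ∈ FF N with smt Z (nn w), ((mue w : ℂ) * Ψ w) * ∑ n₂ ∈ Icc 1 N, B n₂ * H (nn w * n₂) :=
        sum_congr rfl fun w hw => s2 w (mem_filter.1 hw).1
    _ = ∑ w ∈ FF N, (if smt Z (nn w) then (mue w : ℂ) * Ψ w else 0) * ∑ n₂ ∈ Icc 1 N, B n₂ * H (nn w * n₂) := by
        rw [sum_filter]
        refine sum_congr rfl fun w _ => ?_
        split_ifs
        · rfl
        · rw [zero_mul]
    _ = ∑ n₁ ∈ Icc 1 N, A n₁ * ∑ n₂ ∈ Icc 1 N, B n₂ * H (n₁ * n₂) := by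
        rw [HBE_sum hSIZ (fun z => if smt Z (nn z) then (mue z : ℂ) * Ψ z else 0) (fun n => ∑ n₂ ∈ Icc 1 N, B n₂ * H (n * n₂)) N]
        exact sum_congr rfl fun n hn => by rw [r2 n (mem_Icc.1 hn).1]
    _ = _ := by
        refine sum_congr rfl fun n₁ _ => ?_
        rw [mul_sum]
        exact sum_congr rfl fun n₂ _ => by ring

end Pool.Agent.EU
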